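import Mathlib
set_option autoImplicit false

/-! # The generating function of the Barnes double zeta function with `a = (1+α)/2` -/

namespace Pool.Agent.TH304.BZ

open MeasureTheory Set Complex Filter Topology

/-- generating function -/
noncomputable def hh (α : ℝ) (z : ℂ) : ℂ :=
  Complex.exp (-(((1 + α) / 2 : ℝ) : ℂ) * z) /
    ((1 - Complex.exp (-z)) * (1 - Complex.exp (-(α : ℂ) * z)))

theorem one_sub_exp (z : ℂ) : 1 - Complex.exp (-z) =
    Complex.exp (-(z / 2)) * (2 * Complex.sinh (z / 2)) := by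
  rw [Complex.sinh]
  have h1 : Complex.exp (-(z / 2)) * Complex.exp (z / 2) = 1 := by
    rw [← Complex.exp_add]; simp
  have h2 : Complex.exp (-(z / 2)) * Complex.exp (-(z / 2)) = Complex.exp (-z) := by
    rw [← Complex.exp_add]; congr 1; ring
  linear_combination (-1 : ℂ) * h1 + h2

theorem hh_eq (α : ℝ) (z : ℂ) :
    hh α z = (4 * (Complex.sinh (z / 2) * Complex.sinh ((α : ℂ) * z / 2)))⁻¹ := by
  unfold hh
  have h1 := one_sub_exp z
  have h2 := one_sub_exp ((α : ℂ) * z)
  rw [neg_mul (α : ℂ) z, h1, h2]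
  have h3 : Complex.exp (-(z / 2)) * (2 * Complex.sinh (z / 2)) *
      (Complex.exp (-((α : ℂ) * z / 2)) * (2 * Complex.sinh ((α : ℂ) * z / 2))) =
      Complex.exp (-(((1 + α) / 2 : ℝ) : ℂ) * z) *
        (4 * (Complex.sinh (z / 2) * Complex.sinh ((α : ℂ) * z / 2))) := by
    have h4 : Complex.exp (-(z / 2)) * Complex.exp (-((α : ℂ) * z / 2)) =
        Complex.exp (-(((1 + α) / 2 : ℝ) : ℂ) * z) := by
      rw [← Complex.exp_add]; congr 1; push_cast; ring
    rw [← h4]; ring
  rw [h3, div_eq_mul_inv, mul_inv, ← mul_assoc, mul_inv_cancel₀ (Complex.exp_ne_zero _), one_mul]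

/-- `sinh w / w` -/
noncomputable def SS (w : ℂ) : ℂ := dslope Complex.sinh 0 w

theorem SS_mul (w : ℂ) : w * SS w = Complex.sinh w := by
  have := sub_smul_dslope Complex.sinh 0 w
  simpa [SS] using this

theorem SS_zero : SS 0 = 1 := by
  unfold SS
  rw [dslope_same, Complex.deriv_sinh, Complex.cosh_zero]

theorem SS_diff : Differentiable ℂ SS := by
  have h1 : DifferentiableOn ℂ (dslope Complex.sinh 0) univ :=
    (Complex.differentiableOn_dslope (by simp)).2 Complex.differentiable_sinh.differentiableOn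
  exact differentiableOn_univ.1 h1

theorem sinh_ne (w : ℂ) (h0 : w ≠ 0) (h : ‖w‖ < 3) : Complex.sinh w ≠ 0 := by
  intro h1
  have h2 : Complex.sin (w * I) = 0 := by
    rw [Complex.sin_mul_I, h1, zero_mul]
  obtain ⟨k, hk⟩ := Complex.sin_eq_zero_iff.1 h2
  have h3 : ‖w‖ = |(k : ℝ)| * Real.pi := by
    have := congrArg norm hk
    rw [norm_mul, Complex.norm_I, mul_one, norm_mul] at this
    rw [this, Complex.norm_real, Real.norm_eq_abs, abs_of_pos Real.pi_pos, ← Complex.ofReal_intCast,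
      Complex.norm_real, Real.norm_eq_abs]
  have hpi := Real.pi_gt_three
  by_cases hk0 : k = 0
  · rw [hk0] at hk
    simp at hk
    exact h0 hk
  · have h4 : (1 : ℝ) ≤ |(k : ℝ)| := by
      have : (1 : ℤ) ≤ |k| := Int.one_le_abs hk0
      have h5 : ((1 : ℤ) : ℝ) ≤ ((|k| : ℤ) : ℝ) := by exact_mod_cast this
      rw [Int.cast_abs] at h5
      simpa using h5
    nlinarith

theorem SS_ne (w : ℂ) (h : ‖w‖ < 3) : SS w ≠ 0 := by
  by_cases h0 : w = 0
  · rw [h0, SS_zero]; exact one_ne_zero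
  · intro h1
    have := SS_mul w
    rw [h1, mul_zero] at this
    exact sinh_ne w h0 h this.symm

/-- the regular part -/
theorem exists_q (α : ℝ) (h0 : 0 < α) (h1 : α ≤ 1) : ∃ q : ℂ → ℂ,
    DifferentiableOn ℂ q (Metric.ball 0 3) ∧ ∀ z ∈ Metric.ball (0 : ℂ) 3, z ≠ 0 →
      hh α z = ((α : ℂ)⁻¹) / z ^ 2 + q z := by
  have hα : (α : ℂ) ≠ 0 := by exact_mod_cast h0.ne'
  have hb : ∀ z ∈ Metric.ball (0 : ℂ) 3, ‖z / 2‖ < 3 ∧ ‖(α : ℂ) * z / 2‖ < 3 := by
    intro z hz
    rw [mem_ball_zero_iff] at hz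
    have e1 : ‖z / 2‖ = ‖z‖ / 2 := by rw [norm_div]; norm_num
    have e2 : ‖(α : ℂ) * z / 2‖ = α * ‖z‖ / 2 := by
      rw [norm_div, norm_mul, Complex.norm_real, Real.norm_eq_abs, abs_of_pos h0]; norm_num
    have := norm_nonneg z
    constructor
    · rw [e1]; linarith
    · rw [e2]; nlinarith
  set g : ℂ → ℂ := fun z => ((α : ℂ) * (SS (z / 2) * SS ((α : ℂ) * z / 2)))⁻¹ with hg
  have hgd : DifferentiableOn ℂ g (Metric.ball 0 3) := by
    have e1 : Differentiable ℂ fun z : ℂ => (α : ℂ) * (SS (z / 2) * SS ((α : ℂ) * z / 2)) := by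
      have a1 : Differentiable ℂ fun z : ℂ => SS (z / 2) :=
        SS_diff.comp (differentiable_id.div_const 2)
      have a2 : Differentiable ℂ fun z : ℂ => SS ((α : ℂ) * z / 2) :=
        SS_diff.comp ((differentiable_id.const_mul (α : ℂ)).div_const 2)
      exact (a1.mul a2).const_mul _
    refine e1.differentiableOn.inv ?_
    intro z hz
    obtain ⟨b1, b2⟩ := hb z hz
    exact mul_ne_zero hα (mul_ne_zero (SS_ne _ b1) (SS_ne _ b2))
  have hg0 : g 0 = (α : ℂ)⁻¹ := by
    simp [hg, SS_zero]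
  have hSSe : ∀ w, SS (-w) = SS w := by
    intro w
    by_cases hw : w = 0
    · rw [hw, neg_zero]
    · have a1 := SS_mul (-w)
      rw [Complex.sinh_neg, ← SS_mul w] at a1
      have : w * (SS (-w) - SS w) = 0 := by linear_combination -a1
      rcases mul_eq_zero.1 this with h | h
      · exact absurd h hw
      · exact sub_eq_zero.1 h
  have hge : ∀ z, g (-z) = g z := by
    intro z
    simp only [hg]
    rw [show -z / 2 = -(z / 2) by ring, show (α : ℂ) * -z / 2 = -((α : ℂ) * z / 2) by ring,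
      hSSe, hSSe]
  have hg1 : deriv g 0 = 0 := by
    have a1 : deriv (fun z => g (-z)) 0 = -deriv g (-0) := deriv_comp_neg g 0
    simp only [hge, neg_zero] at a1
    have : deriv g 0 + deriv g 0 = 0 := by linear_combination a1
    have h2 : (2 : ℂ) * deriv g 0 = 0 := by linear_combination this
    exact (mul_eq_zero.1 h2).resolve_left two_ne_zero
  have hnhds : Metric.ball (0 : ℂ) 3 ∈ 𝓝 (0 : ℂ) := Metric.ball_mem_nhds _ (by norm_num)
  refine ⟨dslope (dslope g 0) 0, ?_, ?_⟩
  · exact (Complex.differentiableOn_dslope hnhds).2 ((Complex.differentiableOn_dslope hnhds).2 hgd)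
  · intro z hz hz0
    have b1 := sub_smul_dslope (dslope g 0) 0 z
    have b2 := sub_smul_dslope g 0 z
    rw [dslope_same, hg1, sub_zero, sub_zero, smul_eq_mul] at b1
    rw [sub_zero, smul_eq_mul, hg0] at b2
    have b3 : z ^ 2 * dslope (dslope g 0) 0 z = g z - (α : ℂ)⁻¹ := by
      rw [← b2, ← b1]; ring
    have b4 : dslope (dslope g 0) 0 z = (g z - (α : ℂ)⁻¹) / z ^ 2 := by
      rw [← b3]; field_simp
    have b5 : hh α z = g z / z ^ 2 := by
      rw [hh_eq, ← SS_mul (z / 2), ← SS_mul ((α : ℂ) * z / 2)]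
      simp only [hg]
      obtain ⟨c1, c2⟩ := hb z hz
      have c3 := SS_ne _ c1
      have c4 := SS_ne _ c2
      field_simp
      norm_num
    rw [b4, b5]
    ring

end Pool.Agent.TH304.BZ
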