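import Mathlib
import Pool.Agent.TH304.BZ.A
set_option autoImplicit false

/-! # Mellin transforms on rays -/

namespace Pool.Agent.TH304.BZ

open MeasureTheory Set Complex Filter Topology Asymptotics

theorem norm_sinh_ge (w : ℂ) (h : 0 ≤ w.re) : w.re ≤ ‖Complex.sinh w‖ := by
  have h1 : Real.sinh w.re ≤ ‖Complex.sinh w‖ := by
    rw [Complex.sinh, norm_div, Real.sinh_eq]
    have h2 := norm_sub_norm_le (Complex.exp w) (Complex.exp (-w))
    rw [Complex.norm_exp, Complex.norm_exp, Complex.neg_re] at h2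
    have h3 : ‖(2 : ℂ)‖ = 2 := by norm_num
    rw [h3]
    linarith
  exact (Real.self_le_sinh_iff.2 h).trans h1

theorem hh_ray (α : ℝ) (h0 : 0 < α) (ω : ℂ) (hω : 0 < ω.re) (x : ℝ) (hx : 0 < x) :
    ‖hh α (x * ω)‖ ≤ (α * ω.re ^ 2)⁻¹ * (x ^ 2)⁻¹ := by
  rw [hh_eq, norm_inv, ← mul_inv]
  have e1 : ((x : ℂ) * ω / 2).re = x * ω.re / 2 := by
    rw [show (x : ℂ) * ω / 2 = ((x / 2 : ℝ) : ℂ) * ω by push_cast; ring, Complex.re_ofReal_mul]
    ring
  have e2 : ((α : ℂ) * ((x : ℂ) * ω) / 2).re = α * (x * ω.re) / 2 := by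
    rw [show (α : ℂ) * ((x : ℂ) * ω) / 2 = ((α * x / 2 : ℝ) : ℂ) * ω by push_cast; ring,
      Complex.re_ofReal_mul]
    ring
  have h1 := norm_sinh_ge ((x : ℂ) * ω / 2) (by rw [e1]; positivity)
  have h2 := norm_sinh_ge ((α : ℂ) * ((x : ℂ) * ω) / 2) (by rw [e2]; positivity)
  rw [e1] at h1
  rw [e2] at h2
  apply inv_anti₀ (by positivity)
  rw [norm_mul, norm_mul]
  have h3 : ‖(4 : ℂ)‖ = 4 := by norm_num
  rw [h3]
  have h4 : x * ω.re / 2 * (α * (x * ω.re) / 2) ≤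
      ‖Complex.sinh ((x : ℂ) * ω / 2)‖ * ‖Complex.sinh ((α : ℂ) * ((x : ℂ) * ω) / 2)‖ :=
    mul_le_mul h1 h2 (by positivity) (norm_nonneg _)
  calc α * ω.re ^ 2 * x ^ 2 = 4 * (x * ω.re / 2 * (α * (x * ω.re) / 2)) := by ring
    _ ≤ _ := by linarith

theorem one_sub_exp_ge (z : ℂ) : 1 - Real.exp (-z.re) ≤ ‖1 - Complex.exp (-z)‖ := by
  have h2 := norm_sub_norm_le (1 : ℂ) (Complex.exp (-z))
  rwa [norm_one, Complex.norm_exp, Complex.neg_re] at h2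

theorem one_sub_exp_ne (z : ℂ) (h : 0 < z.re) : 1 - Complex.exp (-z) ≠ 0 := by
  have h1 := one_sub_exp_ge z
  have h2 : Real.exp (-z.re) < 1 := by rw [Real.exp_lt_one_iff]; linarith
  intro h3
  rw [h3, norm_zero] at h1
  linarith

theorem hh_exp (α : ℝ) (h0 : 0 < α) (ω : ℂ) (hω : 0 < ω.re) (x : ℝ) (hx : 1 ≤ x) :
    ‖hh α (x * ω)‖ ≤ ((1 - Real.exp (-ω.re)) * (1 - Real.exp (-(α * ω.re))))⁻¹ *
      Real.exp (-((1 + α) / 2 * ω.re) * x) := by
  unfold hh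
  rw [norm_div, Complex.norm_exp, norm_mul, div_eq_inv_mul]
  have e0 : (-(((1 + α) / 2 : ℝ) : ℂ) * ((x : ℂ) * ω)).re = -((1 + α) / 2 * ω.re) * x := by
    rw [show -(((1 + α) / 2 : ℝ) : ℂ) * ((x : ℂ) * ω) = ((-((1 + α) / 2 * x) : ℝ) : ℂ) * ω by
      push_cast; ring, Complex.re_ofReal_mul]
    ring
  rw [e0]
  have e1 : ((x : ℂ) * ω).re = x * ω.re := Complex.re_ofReal_mul _ _
  have e2 : ((α : ℂ) * ((x : ℂ) * ω)).re = α * (x * ω.re) := by
    rw [Complex.re_ofReal_mul, Complex.re_ofReal_mul]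
  have h1 := one_sub_exp_ge ((x : ℂ) * ω)
  have h2 := one_sub_exp_ge ((α : ℂ) * ((x : ℂ) * ω))
  rw [e1] at h1
  rw [e2] at h2
  have g1 : Real.exp (-(x * ω.re)) ≤ Real.exp (-ω.re) := by
    apply Real.exp_le_exp.2; nlinarith
  have g2 : Real.exp (-(α * (x * ω.re))) ≤ Real.exp (-(α * ω.re)) := by
    apply Real.exp_le_exp.2
    have : α * ω.re ≤ α * (x * ω.re) := by
      apply mul_le_mul_of_nonneg_left _ h0.le
      nlinarith
    linarith
  have g3 : Real.exp (-ω.re) < 1 := by rw [Real.exp_lt_one_iff]; linarith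
  have g4 : Real.exp (-(α * ω.re)) < 1 := by
    rw [Real.exp_lt_one_iff]
    have : 0 < α * ω.re := by positivity
    linarith
  refine mul_le_mul_of_nonneg_right ?_ (Real.exp_pos _).le
  apply inv_anti₀ (mul_pos (by linarith) (by linarith))
  rw [neg_mul (α : ℂ) ((x : ℂ) * ω)]
  exact mul_le_mul (by linarith) (by linarith) (by linarith) (norm_nonneg _)

theorem hh_cont (α : ℝ) (h0 : 0 < α) (ω : ℂ) (hω : 0 < ω.re) :
    ContinuousOn (fun x : ℝ => hh α (x * ω)) (Ioi 0) := by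
  unfold hh
  apply ContinuousOn.div
  · apply Continuous.continuousOn; fun_prop
  · apply Continuous.continuousOn; fun_prop
  · intro x hx
    have hx0 : (0 : ℝ) < x := hx
    apply mul_ne_zero
    · apply one_sub_exp_ne
      rw [Complex.re_ofReal_mul]; positivity
    · rw [neg_mul]
      apply one_sub_exp_ne
      rw [Complex.re_ofReal_mul, Complex.re_ofReal_mul]; positivity

/-- truncated main term -/
noncomputable def TT (x : ℝ) : ℂ := (Ioc (0 : ℝ) 1).indicator (fun t : ℝ => (t : ℂ) ^ (-2 : ℂ)) x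

/-- regularised function on a ray -/
noncomputable def ff (α : ℝ) (ω : ℂ) (x : ℝ) : ℂ :=
  hh α (x * ω) - ((α : ℂ)⁻¹ / ω ^ 2) * TT x

theorem locInt_indicator (f : ℝ → ℂ) (hf : LocallyIntegrableOn f (Ioi 0)) (A : Set ℝ)
    (hA : MeasurableSet A) : LocallyIntegrableOn (A.indicator f) (Ioi 0) := by
  intro x hx
  obtain ⟨s, hs, hs'⟩ := hf x hx
  exact ⟨s, hs, hs'.indicator hA⟩

theorem pow_locInt : LocallyIntegrableOn (fun t : ℝ => (t : ℂ) ^ (-2 : ℂ)) (Ioi 0) := by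
  refine ContinuousOn.locallyIntegrableOn ?_ measurableSet_Ioi
  intro t ht
  exact (continuousAt_ofReal_cpow_const _ _ (Or.inr (ne_of_gt ht))).continuousWithinAt

theorem ff_locInt (α : ℝ) (h0 : 0 < α) (ω : ℂ) (hω : 0 < ω.re) :
    LocallyIntegrableOn (ff α ω) (Ioi 0) := by
  have h1 := (hh_cont α h0 ω hω).locallyIntegrableOn (μ := volume) measurableSet_Ioi
  have h2 := locInt_indicator _ pow_locInt (Ioc 0 1) measurableSet_Ioc
  have h3 := h2.smul ((α : ℂ)⁻¹ / ω ^ 2)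
  exact h1.sub h3

theorem ff_small (α : ℝ) (h0 : 0 < α) (h1 : α ≤ 1) (q : ℂ → ℂ)
    (hq : ∀ z ∈ Metric.ball (0 : ℂ) 3, z ≠ 0 → hh α z = ((α : ℂ)⁻¹) / z ^ 2 + q z)
    (ω : ℂ) (hω : 0 < ω.re) (hn : ‖ω‖ = 1) (x : ℝ) (hx : 0 < x) (hx1 : x ≤ 1) :
    ff α ω x = q (x * ω) := by
  have hω0 : ω ≠ 0 := by
    intro h; rw [h] at hω; simp at hω
  have hxc : (x : ℂ) ≠ 0 := by exact_mod_cast hx.ne'
  have hn' : ‖(x : ℂ) * ω‖ = x := by
    rw [norm_mul, hn, mul_one, Complex.norm_real, Real.norm_eq_abs, abs_of_pos hx]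
  unfold ff TT
  rw [indicator_of_mem (show x ∈ Ioc (0 : ℝ) 1 from ⟨hx, hx1⟩), hq ((x : ℂ) * ω) (by
    rw [mem_ball_zero_iff, hn']; linarith) (mul_ne_zero hxc hω0)]
  have e1 : (x : ℂ) ^ (-2 : ℂ) = ((x : ℂ) ^ 2)⁻¹ := by
    rw [Complex.cpow_neg]
    norm_cast
  rw [e1, mul_pow]
  field_simp
  ring

theorem ff_bound (α : ℝ) (h0 : 0 < α) (h1 : α ≤ 1) : ∃ K : ℝ, 0 < K ∧ ∀ (ω : ℂ), 0 < ω.re →
    ‖ω‖ = 1 → ∀ x : ℝ, 0 < x → x ≤ 1 → ‖ff α ω x‖ ≤ K := by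
  obtain ⟨q, hqd, hq⟩ := exists_q α h0 h1
  have hc : IsCompact (Metric.closedBall (0 : ℂ) 1) := isCompact_closedBall _ _
  have hcont : ContinuousOn q (Metric.closedBall (0 : ℂ) 1) :=
    hqd.continuousOn.mono (Metric.closedBall_subset_ball (by norm_num))
  obtain ⟨K, hK⟩ := hc.exists_bound_of_continuousOn hcont
  refine ⟨|K| + 1, by positivity, fun ω hω hn x hx hx1 => ?_⟩
  rw [ff_small α h0 h1 q hq ω hω hn x hx hx1]
  refine (hK _ ?_).trans (by linarith [le_abs_self K])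
  rw [mem_closedBall_zero_iff, norm_mul, hn, mul_one, Complex.norm_real, Real.norm_eq_abs,
    abs_of_pos hx]
  exact hx1

theorem ff_zero (α : ℝ) (h0 : 0 < α) (h1 : α ≤ 1) (ω : ℂ) (hω : 0 < ω.re) (hn : ‖ω‖ = 1) :
    ff α ω =O[𝓝[>] 0] (fun x : ℝ => x ^ (-(0 : ℝ))) := by
  obtain ⟨K, hK0, hK⟩ := ff_bound α h0 h1
  refine IsBigO.of_bound K ?_
  have h2 : Ioc (0 : ℝ) 1 ∈ 𝓝[>] (0 : ℝ) := Ioc_mem_nhdsGT one_pos
  filter_upwards [h2] with x hx
  rw [neg_zero, Real.rpow_zero, norm_one, mul_one]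
  exact hK ω hω hn x hx.1 hx.2

theorem ff_top (α : ℝ) (h0 : 0 < α) (ω : ℂ) (hω : 0 < ω.re) :
    ff α ω =O[atTop] (fun x : ℝ => Real.exp (-((1 + α) / 2 * ω.re) * x)) := by
  refine IsBigO.of_bound (((1 - Real.exp (-ω.re)) * (1 - Real.exp (-(α * ω.re))))⁻¹) ?_
  filter_upwards [eventually_gt_atTop (1 : ℝ)] with x hx
  have e1 : ff α ω x = hh α (x * ω) := by
    unfold ff TT
    rw [indicator_of_notMem (fun h => by linarith [h.2]), mul_zero, sub_zero]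
  rw [e1, Real.norm_eq_abs, abs_of_pos (Real.exp_pos _)]
  exact hh_exp α h0 ω hω x hx.le

theorem ff_conv (α : ℝ) (h0 : 0 < α) (h1 : α ≤ 1) (ω : ℂ) (hω : 0 < ω.re) (hn : ‖ω‖ = 1)
    (s : ℂ) (hs : 0 < s.re) : MellinConvergent (ff α ω) s :=
  mellinConvergent_of_isBigO_rpow_exp (a := (1 + α) / 2 * ω.re) (by positivity)
    (ff_locInt α h0 ω hω) (ff_top α h0 ω hω) (ff_zero α h0 h1 ω hω hn) hs

theorem ff_diff (α : ℝ) (h0 : 0 < α) (h1 : α ≤ 1) (ω : ℂ) (hω : 0 < ω.re) (hn : ‖ω‖ = 1)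
    (s : ℂ) (hs : 0 < s.re) : DifferentiableAt ℂ (mellin (ff α ω)) s :=
  mellin_differentiableAt_of_isBigO_rpow_exp (a := (1 + α) / 2 * ω.re) (by positivity)
    (ff_locInt α h0 ω hω) (ff_top α h0 ω hω) (ff_zero α h0 h1 ω hω hn) hs

/-- to the right of the pole -/
theorem mellin_right (α : ℝ) (h0 : 0 < α) (h1 : α ≤ 1) (ω : ℂ) (hω : 0 < ω.re) (hn : ‖ω‖ = 1)
    (s : ℂ) (hs : 2 < s.re) : HasMellin (fun x : ℝ => hh α (x * ω)) s
      (mellin (ff α ω) s + ((α : ℂ)⁻¹ / ω ^ 2) / (s - 2)) := by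
  have a1 := ff_conv α h0 h1 ω hω hn s (by linarith)
  have a2 : HasMellin TT s (1 / (s + (-2))) := by
    have := hasMellin_cpow_Ioc (-2) (s := s) (by
      simp only [Complex.neg_re, Complex.re_ofNat]; linarith)
    exact this
  have a3 := hasMellin_const_smul a2.1 ((α : ℂ)⁻¹ / ω ^ 2)
  have a4 := hasMellin_add a1 a3.1
  rw [a3.2, a2.2] at a4
  have e1 : (fun t => ff α ω t + ((α : ℂ)⁻¹ / ω ^ 2) • TT t) = fun x : ℝ => hh α (x * ω) := by
    funext x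
    unfold ff
    rw [smul_eq_mul]; ring
  rw [e1] at a4
  refine ⟨a4.1, a4.2.trans ?_⟩
  rw [smul_eq_mul, ← sub_eq_add_neg]
  ring

/-- function whose Mellin transform converges in the strip `0 < re s < 2` -/
noncomputable def h1 (α : ℝ) (ω : ℂ) (x : ℝ) : ℂ :=
  hh α (x * ω) - ((α : ℂ)⁻¹ / ω ^ 2) * (x : ℂ) ^ (-2 : ℂ)

/-- to the left of the pole -/
theorem mellin_left (α : ℝ) (h0 : 0 < α) (hα : α ≤ 1) (ω : ℂ) (hω : 0 < ω.re) (hn : ‖ω‖ = 1)
    (s : ℂ) (hs0 : 0 < s.re) (hs : s.re < 2) : HasMellin (h1 α ω) s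
      (mellin (ff α ω) s + ((α : ℂ)⁻¹ / ω ^ 2) / (s - 2)) := by
  have a1 := ff_conv α h0 hα ω hω hn s hs0
  have hre : (s - 3).re < -1 := by
    simp only [Complex.sub_re, Complex.re_ofNat]; linarith
  have i1 : IntegrableOn (fun t : ℝ => (t : ℂ) ^ (s - 3)) (Ioi 1) :=
    integrableOn_Ioi_cpow_of_lt hre one_pos
  have i2 := integral_Ioi_cpow_of_lt hre one_pos
  set UU : ℝ → ℂ := (Ioi (1 : ℝ)).indicator (fun t : ℝ => (t : ℂ) ^ (-2 : ℂ)) with hUU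
  have e2 : ∀ t : ℝ, t ∈ Ioi (0 : ℝ) → (t : ℂ) ^ (s - 1) • UU t =
      (Ioi (1 : ℝ)).indicator (fun t : ℝ => (t : ℂ) ^ (s - 3)) t := by
    intro t ht
    have htc : (t : ℂ) ≠ 0 := by
      have : (0 : ℝ) < t := ht
      exact_mod_cast this.ne'
    rw [hUU]
    by_cases h : t ∈ Ioi (1 : ℝ)
    · rw [indicator_of_mem h, indicator_of_mem h, smul_eq_mul, ← Complex.cpow_add _ _ htc]
      congr 1; ring
    · rw [indicator_of_notMem h, indicator_of_notMem h, smul_zero]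
  have i3 : IntegrableOn ((Ioi (1 : ℝ)).indicator (fun t : ℝ => (t : ℂ) ^ (s - 3))) (Ioi 0) := by
    rw [IntegrableOn, integrable_indicator_iff measurableSet_Ioi, IntegrableOn,
      Measure.restrict_restrict measurableSet_Ioi, ← IntegrableOn]
    exact i1.mono_set inter_subset_left
  have a2 : HasMellin UU s (-(1 / (s - 2))) := by
    constructor
    · exact (integrableOn_congr_fun e2 measurableSet_Ioi).2 i3
    · unfold mellin
      rw [setIntegral_congr_fun measurableSet_Ioi e2, integral_indicator measurableSet_Ioi,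
        Measure.restrict_restrict measurableSet_Ioi,
        inter_eq_left.2 (Ioi_subset_Ioi zero_le_one), i2]
      rw [show s - 3 + 1 = s - 2 by ring]
      simp [neg_div]
  have a3 := hasMellin_const_smul a2.1 ((α : ℂ)⁻¹ / ω ^ 2)
  have a4 := hasMellin_sub a1 a3.1
  rw [a3.2, a2.2] at a4
  have e1 : ∀ x : ℝ, x ∈ Ioi (0 : ℝ) →
      ff α ω x - ((α : ℂ)⁻¹ / ω ^ 2) • UU x = h1 α ω x := by
    intro x hx
    have hx0 : (0 : ℝ) < x := hx
    unfold ff h1 TT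
    rw [hUU, smul_eq_mul]
    by_cases h : x ∈ Ioi (1 : ℝ)
    · have h1x : (1 : ℝ) < x := h
      rw [indicator_of_mem h, indicator_of_notMem (fun h' => by linarith [h'.2])]; ring
    · rw [indicator_of_notMem h, indicator_of_mem (show x ∈ Ioc (0 : ℝ) 1 from
        ⟨hx0, not_lt.1 h⟩)]; ring
  refine ⟨?_, ?_⟩
  · exact (integrableOn_congr_fun (fun x hx => by rw [← e1 x hx]) measurableSet_Ioi).1 a4.1
  · have : mellin (h1 α ω) s = mellin (fun t => ff α ω t - ((α : ℂ)⁻¹ / ω ^ 2) • UU t) s :=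
      setIntegral_congr_fun measurableSet_Ioi (fun x hx => by simp only [e1 x hx])
    rw [this, a4.2, smul_eq_mul]
    ring

end Pool.Agent.TH304.BZ
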