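import Mathlib
import Pool.Agent.TH304.BZ.B
set_option autoImplicit false

/-! # The Dirichlet series -/

namespace Pool.Agent.TH304.BZ

open MeasureTheory Set Complex Filter Topology Asymptotics

/-- the frequencies -/
noncomputable def pp (α : ℝ) (m : Fin 2 → ℕ) : ℝ :=
  (1 + α) / 2 + ∑ j, (m j : ℝ) * (![1, α] : Fin 2 → ℝ) j

theorem pp_eq (α : ℝ) (m : Fin 2 → ℕ) : pp α m = (1 + α) / 2 + (m 0 : ℝ) + (m 1 : ℝ) * α := by
  unfold pp
  rw [Fin.sum_univ_two]
  simp
  ring

theorem pp_pos (α : ℝ) (h0 : 0 < α) (m : Fin 2 → ℕ) : 0 < pp α m := by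
  rw [pp_eq]; positivity

theorem hh_hasSum (α : ℝ) (h0 : 0 < α) (x : ℝ) (hx : 0 < x) :
    HasSum (fun m : Fin 2 → ℕ => (1 : ℂ) * (Real.exp (-pp α m * x) : ℂ)) (hh α (x * 1)) := by
  have e1 : ‖Complex.exp (-(x : ℂ))‖ < 1 := by
    rw [Complex.norm_exp, Complex.neg_re, Complex.ofReal_re, Real.exp_lt_one_iff]; linarith
  have e2 : ‖Complex.exp (-((α * x : ℝ) : ℂ))‖ < 1 := by
    rw [Complex.norm_exp, Complex.neg_re, Complex.ofReal_re, Real.exp_lt_one_iff]
    have : 0 < α * x := by positivity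
    linarith
  have h1 := hasSum_geometric_of_norm_lt_one e1
  have h2 := hasSum_geometric_of_norm_lt_one e2
  have h3 := h1.mul h2 (summable_mul_of_summable_norm (summable_norm_geometric_of_norm_lt_one e1)
    (summable_norm_geometric_of_norm_lt_one e2))
  have h4 := h3.mul_left (Complex.exp (-(((1 + α) / 2 : ℝ) : ℂ) * x))
  have h5 := (finTwoArrowEquiv ℕ).hasSum_iff.2 h4
  have e3 : Complex.exp (-(((1 + α) / 2 : ℝ) : ℂ) * x) * ((1 - Complex.exp (-(x : ℂ)))⁻¹ *
      (1 - Complex.exp (-((α * x : ℝ) : ℂ)))⁻¹) = hh α (x * 1) := by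
    unfold hh
    rw [mul_one, div_eq_mul_inv (Complex.exp _) (_ * _), mul_inv]
    congr 3
    push_cast
    ring_nf
  rw [e3] at h5
  refine h5.congr_fun ?_
  intro m
  have e4 : (finTwoArrowEquiv ℕ) m = (m 0, m 1) := rfl
  simp only [Function.comp_apply, e4]
  rw [← Complex.exp_nat_mul, ← Complex.exp_nat_mul, ← Complex.exp_add, ← Complex.exp_add, one_mul,
    Complex.ofReal_exp]
  congr 1
  rw [pp_eq]
  push_cast
  ring

theorem pp_summable (α : ℝ) (h0 : 0 < α) (σ : ℝ) (hσ : 2 < σ) :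
    Summable fun m : Fin 2 → ℕ => ‖(1 : ℂ)‖ / pp α m ^ σ := by
  have hσ2 : 1 < σ / 2 := by linarith
  have s1 : Summable fun n : ℕ => ((n : ℝ) + 1) ^ (-(σ / 2)) := by
    have := (Real.summable_nat_rpow (p := -(σ / 2))).2 (by linarith)
    have h := (summable_nat_add_iff 1).2 this
    refine h.congr fun n => ?_
    push_cast
    rfl
  have s2 : Summable fun p : ℕ × ℕ => ((p.1 : ℝ) + 1) ^ (-(σ / 2)) * ((p.2 : ℝ) + 1) ^ (-(σ / 2)) :=
    summable_mul_of_summable_norm (s1.congr fun n => (Real.norm_of_nonneg (by positivity)).symm)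
      (s1.congr fun n => (Real.norm_of_nonneg (by positivity)).symm)
  have s3 := (finTwoArrowEquiv ℕ).summable_iff.2 s2
  obtain ⟨κ, hκ0, hκ⟩ : ∃ κ : ℝ, 0 < κ ∧ ∀ m n : ℝ, 0 ≤ m → 0 ≤ n →
      κ * (Real.sqrt (m + 1) * Real.sqrt (n + 1)) ≤ (1 + α) / 2 + m + n * α := by
    refine ⟨min 1 α / 2, by positivity, ?_⟩
    intro m n hm hn
    have h1 := Real.sq_sqrt (show (0 : ℝ) ≤ m + 1 by linarith)
    have h2 := Real.sq_sqrt (show (0 : ℝ) ≤ n + 1 by linarith)
    have h3 := two_mul_le_add_sq (Real.sqrt (m + 1)) (Real.sqrt (n + 1))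
    have h4 : 0 < min 1 α := by positivity
    have h5 : min 1 α ≤ 1 := min_le_left _ _
    have h6 : min 1 α ≤ α := min_le_right _ _
    have h7 : Real.sqrt (m + 1) * Real.sqrt (n + 1) ≤ ((m + 1) + (n + 1)) / 2 := by
      rw [h1, h2] at h3; linarith
    calc min 1 α / 2 * (Real.sqrt (m + 1) * Real.sqrt (n + 1))
        ≤ min 1 α / 2 * (((m + 1) + (n + 1)) / 2) := by gcongr
      _ = (min 1 α * m + min 1 α * n + min 1 α * 2) / 4 := by ring
      _ ≤ (1 * m + α * n + (1 + α)) / 4 := by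
          have a1 : min 1 α * m ≤ 1 * m := by gcongr
          have a2 : min 1 α * n ≤ α * n := by gcongr
          linarith
      _ ≤ (1 + α) / 2 + m + n * α := by
          have : 0 ≤ n * α := by positivity
          nlinarith
  refine Summable.of_nonneg_of_le (fun m => by have := pp_pos α h0 m; positivity) (fun m => ?_)
    (s3.mul_left (κ ^ (-σ)))
  have hp := pp_pos α h0 m
  rw [norm_one, one_div, ← Real.rpow_neg hp.le]
  have e4 : (finTwoArrowEquiv ℕ) m = (m 0, m 1) := rfl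
  simp only [Function.comp_apply, e4]
  have h1 := hκ (m 0) (m 1) (by positivity) (by positivity)
  rw [← pp_eq] at h1
  calc pp α m ^ (-σ) ≤ (κ * (Real.sqrt ((m 0 : ℝ) + 1) * Real.sqrt ((m 1 : ℝ) + 1))) ^ (-σ) := by
        apply Real.rpow_le_rpow_of_nonpos (by positivity) h1 (by linarith)
    _ = _ := by
        rw [Real.mul_rpow hκ0.le (by positivity), Real.mul_rpow (by positivity) (by positivity)]
        have e1 : ∀ y : ℝ, 0 ≤ y → Real.sqrt y ^ (-σ) = y ^ (-(σ / 2)) := by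
          intro y hy
          rw [Real.sqrt_eq_rpow, ← Real.rpow_mul hy]
          congr 1
          ring
        rw [e1 _ (by positivity), e1 _ (by positivity)]

theorem dirichlet (α : ℝ) (h0 : 0 < α) (s : ℂ) (hs : 2 < s.re) :
    HasSum (fun m : Fin 2 → ℕ => Complex.Gamma s * ((pp α m : ℂ)) ^ (-s))
      (mellin (fun x : ℝ => hh α (x * 1)) s) := by
  have h := hasSum_mellin (a := fun _ : Fin 2 → ℕ => (1 : ℂ)) (p := pp α)
    (F := fun x : ℝ => hh α (x * 1)) (s := s) (fun m => Or.inr (pp_pos α h0 m)) (by linarith)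
    (fun t ht => by
      have := hh_hasSum α h0 t ht
      simpa using this) (pp_summable α h0 s.re hs)
  refine h.congr_fun ?_
  intro m
  rw [Complex.cpow_neg, mul_one, div_eq_mul_inv]

end Pool.Agent.TH304.BZ
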