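import Mathlib
import Pool.Agent.TH304.BZ.B
set_option autoImplicit false

/-! # Rotation of the ray of integration -/

namespace Pool.Agent.TH304.BZ

open MeasureTheory Set Complex Filter Topology

theorem exp_abs_le (x : ℝ) : Real.exp (-|x|) ≤ 2 * (1 + x ^ 2)⁻¹ := by
  have h1 := Real.quadratic_le_exp_of_nonneg (abs_nonneg x)
  rw [sq_abs] at h1
  have h2 : (1 + x ^ 2) / 2 ≤ Real.exp |x| := by
    have := abs_nonneg x
    linarith
  rw [Real.exp_neg]
  calc (Real.exp |x|)⁻¹ ≤ ((1 + x ^ 2) / 2)⁻¹ := inv_anti₀ (by positivity) h2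
    _ = 2 * (1 + x ^ 2)⁻¹ := by rw [inv_div]; ring

theorem exp_abs_integrable : Integrable fun x : ℝ => Real.exp (-|x|) := by
  refine (integrable_inv_one_add_sq.const_mul 2).mono'
    (Continuous.aestronglyMeasurable (by fun_prop)) ?_
  refine Eventually.of_forall fun x => ?_
  rw [Real.norm_eq_abs, abs_of_pos (Real.exp_pos _)]
  exact exp_abs_le x

/-- shifting a horizontal line of integration -/
theorem shift (f : ℂ → ℂ) (θ : ℝ) (hθ : 0 ≤ θ)
    (hf : DifferentiableOn ℂ f {w | -θ ≤ w.im ∧ w.im ≤ 0}) (K : ℝ)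
    (hK : ∀ w : ℂ, -θ ≤ w.im → w.im ≤ 0 → ‖f w‖ ≤ K * Real.exp (-|w.re|)) :
    ∫ u : ℝ, f u = ∫ u : ℝ, f (u + (-θ : ℝ) * I) := by
  have hc : ∀ y : ℝ, -θ ≤ y → y ≤ 0 → Continuous fun u : ℝ => f (u + (y : ℂ) * I) := by
    intro y h1 h2
    have h3 : Continuous fun u : ℝ => (u : ℂ) + (y : ℂ) * I := by fun_prop
    exact hf.continuousOn.comp_continuous h3 (fun u => by simp [h1, h2])
  have hI : ∀ y : ℝ, -θ ≤ y → y ≤ 0 → Integrable fun u : ℝ => f (u + (y : ℂ) * I) := by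
    intro y h1 h2
    refine (exp_abs_integrable.const_mul K).mono' (hc y h1 h2).aestronglyMeasurable ?_
    refine Eventually.of_forall fun u => ?_
    have := hK (u + (y : ℂ) * I) (by simpa using h1) (by simpa using h2)
    simpa using this
  have h0 : ∀ T : ℝ, (∫ x in (-T)..T, f (x + ((-θ : ℝ) : ℂ) * I)) -
      (∫ x in (-T)..T, f (x + ((0 : ℝ) : ℂ) * I)) =
      I • (∫ y in (-θ)..0, f (((-T : ℝ) : ℂ) + y * I)) -
        I • (∫ y in (-θ)..0, f ((T : ℂ) + y * I)) := by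
    intro T
    have h1 := integral_boundary_rect_eq_zero_of_differentiableOn f ⟨-T, -θ⟩ ⟨T, 0⟩ (by
      refine hf.mono ?_
      intro w hw
      have := hw.2
      simp only [mem_preimage, uIcc_of_le (show -θ ≤ 0 by linarith), mem_Icc] at this
      exact this)
    simp only at h1
    linear_combination h1
  have hside : ∀ T : ℝ, ‖∫ y in (-θ)..0, f ((T : ℂ) + y * I)‖ ≤ K * Real.exp (-|T|) * θ := by
    intro T
    have := intervalIntegral.norm_integral_le_of_norm_le_const (a := -θ) (b := 0)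
      (f := fun y : ℝ => f ((T : ℂ) + y * I)) (C := K * Real.exp (-|T|)) (by
        intro y hy
        rw [uIoc_of_le (by linarith)] at hy
        have := hK ((T : ℂ) + y * I) (by simpa using hy.1.le) (by simpa using hy.2)
        simpa using this)
    rw [sub_neg_eq_add, zero_add, abs_of_nonneg hθ] at this
    exact this
  have ht1 : Tendsto (fun T : ℝ => ∫ x in (-T)..T, f (x + ((-θ : ℝ) : ℂ) * I)) atTop
      (𝓝 (∫ u : ℝ, f (u + (-θ : ℝ) * I))) :=
    intervalIntegral_tendsto_integral (hI (-θ) le_rfl (by linarith)) tendsto_neg_atTop_atBot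
      tendsto_id
  have ht2 : Tendsto (fun T : ℝ => ∫ x in (-T)..T, f (x + ((0 : ℝ) : ℂ) * I)) atTop
      (𝓝 (∫ u : ℝ, f (u + ((0 : ℝ) : ℂ) * I))) :=
    intervalIntegral_tendsto_integral (hI 0 (by linarith) le_rfl) tendsto_neg_atTop_atBot
      tendsto_id
  have ht3 : Tendsto (fun T : ℝ => I • (∫ y in (-θ)..0, f (((-T : ℝ) : ℂ) + y * I)) -
        I • (∫ y in (-θ)..0, f ((T : ℂ) + y * I))) atTop (𝓝 0) := by
    apply squeeze_zero_norm' (a := fun T : ℝ => 2 * (K * θ) * Real.exp (-T))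
    · filter_upwards [eventually_ge_atTop (0 : ℝ)] with T hT
      have a1 := hside T
      have a2 := hside (-T)
      rw [abs_neg] at a2
      rw [abs_of_nonneg hT] at a1 a2
      calc _ ≤ ‖I • (∫ y in (-θ)..0, f (((-T : ℝ) : ℂ) + y * I))‖ +
            ‖I • (∫ y in (-θ)..0, f ((T : ℂ) + y * I))‖ := norm_sub_le _ _
        _ = ‖(∫ y in (-θ)..0, f (((-T : ℝ) : ℂ) + y * I))‖ +
            ‖(∫ y in (-θ)..0, f ((T : ℂ) + y * I))‖ := by
            rw [norm_smul, norm_smul, Complex.norm_I, one_mul, one_mul]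
        _ ≤ K * Real.exp (-T) * θ + K * Real.exp (-T) * θ := add_le_add a2 a1
        _ = _ := by ring
    · have : Tendsto (fun T : ℝ => Real.exp (-T)) atTop (𝓝 0) :=
        Real.tendsto_exp_neg_atTop_nhds_zero
      simpa using this.const_mul (2 * (K * θ))
  have ht4 := ht1.sub ht2
  simp only [h0] at ht4
  have h5 := tendsto_nhds_unique ht4 ht3
  have h6 := sub_eq_zero.1 h5
  rw [h6]
  simp

/-- `h1` as a function on the half plane -/
noncomputable def g1 (α : ℝ) (z : ℂ) : ℂ := hh α z - (α : ℂ)⁻¹ / z ^ 2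

theorem h1_eq (α : ℝ) (ω : ℂ) (hω : ω ≠ 0) (x : ℝ) (hx : 0 < x) : h1 α ω x = g1 α (x * ω) := by
  unfold h1 g1
  have hxc : (x : ℂ) ≠ 0 := by exact_mod_cast hx.ne'
  have e1 : (x : ℂ) ^ (-2 : ℂ) = ((x : ℂ) ^ 2)⁻¹ := by
    rw [Complex.cpow_neg]
    norm_cast
  rw [e1, mul_pow]
  field_simp

theorem g1_diff (α : ℝ) (h0 : 0 < α) (z : ℂ) (hz : 0 < z.re) : DifferentiableAt ℂ (g1 α) z := by
  unfold g1 hh
  have hz0 : z ≠ 0 := by
    intro h; rw [h] at hz; simp at hz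
  have n1 : 1 - Complex.exp (-z) ≠ 0 := one_sub_exp_ne z hz
  have n2 : 1 - Complex.exp (-(α : ℂ) * z) ≠ 0 := by
    rw [neg_mul]
    apply one_sub_exp_ne
    rw [Complex.re_ofReal_mul]; positivity
  have n3 : (1 - Complex.exp (-z)) * (1 - Complex.exp (-(α : ℂ) * z)) ≠ 0 := mul_ne_zero n1 n2
  have n4 : z ^ 2 ≠ 0 := pow_ne_zero 2 hz0
  fun_prop (disch := assumption)

theorem g1_bound (α : ℝ) (h0 : 0 < α) (hα : α ≤ 1) (κ : ℝ) (hκ : 0 < κ) : ∃ K : ℝ, 0 < K ∧
    ∀ ω : ℂ, κ ≤ ω.re → ‖ω‖ = 1 → ∀ x : ℝ, 0 < x →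
      (x ≤ 1 → ‖g1 α (x * ω)‖ ≤ K) ∧ (‖g1 α (x * ω)‖ ≤ K * (x ^ 2)⁻¹) := by
  obtain ⟨K, hK0, hK⟩ := ff_bound α h0 hα
  refine ⟨K + ((α * κ ^ 2)⁻¹ + α⁻¹), by positivity, fun ω hω hn x hx => ⟨fun hx1 => ?_, ?_⟩⟩
  · have hω' : 0 < ω.re := lt_of_lt_of_le hκ hω
    have hω0 : ω ≠ 0 := by
      intro h; rw [h] at hω'; simp at hω'
    have h2 := hK ω hω' hn x hx hx1
    have h3 : ff α ω x = h1 α ω x := by
      unfold ff h1 TT
      rw [indicator_of_mem (show x ∈ Ioc (0 : ℝ) 1 from ⟨hx, hx1⟩)]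
    rw [h3, h1_eq α ω hω0 x hx] at h2
    have : 0 < (α * κ ^ 2)⁻¹ + α⁻¹ := by positivity
    linarith
  · have hω' : 0 < ω.re := lt_of_lt_of_le hκ hω
    have h2 := hh_ray α h0 ω hω' x hx
    have h3 : ‖(α : ℂ)⁻¹ / ((x : ℂ) * ω) ^ 2‖ = α⁻¹ * (x ^ 2)⁻¹ := by
      rw [norm_div, norm_inv, norm_pow, norm_mul, hn, mul_one, Complex.norm_real,
        Complex.norm_real, Real.norm_eq_abs, Real.norm_eq_abs, abs_of_pos hx, abs_of_pos h0,
        div_eq_mul_inv]
    have h4 : (α * ω.re ^ 2)⁻¹ ≤ (α * κ ^ 2)⁻¹ := by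
      apply inv_anti₀ (by positivity)
      gcongr
    have hx2 : 0 < (x ^ 2)⁻¹ := by positivity
    calc ‖g1 α (x * ω)‖ ≤ ‖hh α (x * ω)‖ + ‖(α : ℂ)⁻¹ / ((x : ℂ) * ω) ^ 2‖ := norm_sub_le _ _
      _ ≤ (α * κ ^ 2)⁻¹ * (x ^ 2)⁻¹ + α⁻¹ * (x ^ 2)⁻¹ := by
          rw [h3]
          have := mul_le_mul_of_nonneg_right h4 hx2.le
          linarith
      _ ≤ (K + ((α * κ ^ 2)⁻¹ + α⁻¹)) * (x ^ 2)⁻¹ := by
          have := mul_pos hK0 hx2
          nlinarith

/-- the function `ψ_θ(u) = e^{-u} g(e^{-u} e^{iθ})` -/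
noncomputable def psi (α θ : ℝ) (u : ℝ) : ℂ :=
  (Real.exp (-u) : ℂ) * g1 α ((Real.exp (-u) : ℂ) * Complex.exp (θ * I))

theorem unit_re (θ : ℝ) : (Complex.exp (θ * I)).re = Real.cos θ := Complex.exp_ofReal_mul_I_re θ

theorem unit_norm (θ : ℝ) : ‖Complex.exp (θ * I)‖ = 1 := Complex.norm_exp_ofReal_mul_I θ

theorem psi_bound (α : ℝ) (h0 : 0 < α) (hα : α ≤ 1) (θ : ℝ) (hθ : 0 ≤ θ) (hθ2 : θ < Real.pi / 2) :
    ∃ K : ℝ, 0 < K ∧ ∀ φ : ℝ, 0 ≤ φ → φ ≤ θ → ∀ u : ℝ, ‖psi α φ u‖ ≤ K * Real.exp (-|u|) := by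
  have hcos : 0 < Real.cos θ := Real.cos_pos_of_mem_Ioo ⟨by linarith [Real.pi_pos], hθ2⟩
  obtain ⟨K, hK0, hK⟩ := g1_bound α h0 hα (Real.cos θ) hcos
  refine ⟨K, hK0, fun φ hφ0 hφ u => ?_⟩
  have hre : Real.cos θ ≤ (Complex.exp (φ * I)).re := by
    rw [unit_re]
    exact Real.cos_le_cos_of_nonneg_of_le_pi hφ0 (by linarith [Real.pi_pos]) hφ
  obtain ⟨b1, b2⟩ := hK _ hre (unit_norm φ) (Real.exp (-u)) (Real.exp_pos _)
  unfold psi
  rw [norm_mul, Complex.norm_real, Real.norm_eq_abs, abs_of_pos (Real.exp_pos _)]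
  rcases le_total 0 u with hu | hu
  · have b3 := b1 (by rw [Real.exp_le_one_iff]; linarith)
    rw [abs_of_nonneg hu, mul_comm]
    exact mul_le_mul_of_nonneg_right b3 (Real.exp_pos _).le
  · rw [abs_of_nonpos hu, neg_neg]
    calc Real.exp (-u) * ‖g1 α ((Real.exp (-u) : ℂ) * Complex.exp (φ * I))‖
        ≤ Real.exp (-u) * (K * (Real.exp (-u) ^ 2)⁻¹) := by gcongr
      _ = K * Real.exp u := by
          rw [Real.exp_neg]
          field_simp

theorem psi_cont (α : ℝ) (h0 : 0 < α) (θ : ℝ) (hθ : 0 ≤ θ) (hθ2 : θ < Real.pi / 2) :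
    Continuous (psi α θ) := by
  have hcos : 0 < Real.cos θ := Real.cos_pos_of_mem_Ioo ⟨by linarith [Real.pi_pos], hθ2⟩
  unfold psi
  refine Continuous.mul (by fun_prop) ?_
  rw [continuous_iff_continuousAt]
  intro u
  have h2 : ContinuousAt (g1 α) ((Real.exp (-u) : ℂ) * Complex.exp (θ * I)) := by
    refine (g1_diff α h0 _ ?_).continuousAt
    rw [Complex.re_ofReal_mul, unit_re]
    positivity
  have h3 : ContinuousAt (fun u : ℝ => (Real.exp (-u) : ℂ) * Complex.exp (θ * I)) u := by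
    apply Continuous.continuousAt
    fun_prop
  exact ContinuousAt.comp (f := fun u : ℝ => (Real.exp (-u) : ℂ) * Complex.exp (θ * I)) h2 h3

/-- Fourier-type integral -/
noncomputable def MM (α θ t : ℝ) : ℂ :=
  ∫ u : ℝ, Complex.exp (((-(t * u) : ℝ) : ℂ) * I) * psi α θ u

theorem rotate (α : ℝ) (h0 : 0 < α) (hα : α ≤ 1) (θ : ℝ) (hθ : 0 ≤ θ) (hθ2 : θ < Real.pi / 2)
    (t : ℝ) : ‖MM α θ t‖ = Real.exp (θ * t) * ‖MM α 0 t‖ := by
  obtain ⟨K, hK0, hK⟩ := psi_bound α h0 hα θ hθ hθ2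
  set f : ℂ → ℂ := fun w => Complex.exp (-(1 + t * I) * w) * g1 α (Complex.exp (-w)) with hf
  have hfd : DifferentiableOn ℂ f {w | -θ ≤ w.im ∧ w.im ≤ 0} := by
    intro w hw
    have h2 : DifferentiableAt ℂ (g1 α) (Complex.exp (-w)) := by
      apply g1_diff α h0
      rw [Complex.exp_re, Complex.neg_im, Real.cos_neg]
      have : 0 < Real.cos w.im :=
        Real.cos_pos_of_mem_Ioo ⟨by linarith [hw.1], by linarith [hw.2, Real.pi_pos]⟩
      positivity
    have h3 : DifferentiableAt ℂ (fun w : ℂ => Complex.exp (-w)) w := by fun_prop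
    have h4 : DifferentiableAt ℂ (fun w : ℂ => g1 α (Complex.exp (-w))) w :=
      DifferentiableAt.comp (f := fun w : ℂ => Complex.exp (-w)) w h2 h3
    have h5 : DifferentiableAt ℂ (fun w : ℂ => Complex.exp (-(1 + t * I) * w)) w := by fun_prop
    exact (h5.mul h4).differentiableWithinAt
  have hval : ∀ u y : ℝ, f (u + (-y : ℝ) * I) = (Complex.exp (y * I) * Real.exp (-(y * t))) *
      (Complex.exp (((-(t * u) : ℝ) : ℂ) * I) * psi α y u) := by
    intro u y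
    simp only [hf]
    unfold psi
    have e1 : Complex.exp (-((u : ℂ) + (-y : ℝ) * I)) =
        (Real.exp (-u) : ℂ) * Complex.exp (y * I) := by
      rw [Complex.ofReal_exp, ← Complex.exp_add]
      congr 1
      push_cast
      ring
    have e2 : Complex.exp (-(1 + t * I) * ((u : ℂ) + (-y : ℝ) * I)) =
        (Complex.exp (y * I) * Real.exp (-(y * t))) *
          (Complex.exp (((-(t * u) : ℝ) : ℂ) * I) * (Real.exp (-u) : ℂ)) := by
      rw [Complex.ofReal_exp, Complex.ofReal_exp, ← Complex.exp_add, ← Complex.exp_add,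
        ← Complex.exp_add]
      congr 1
      push_cast
      linear_combination ((t : ℂ) * y) * Complex.I_sq
    rw [e1, e2]
    ring
  have hbd : ∀ w : ℂ, -θ ≤ w.im → w.im ≤ 0 →
      ‖f w‖ ≤ (K * Real.exp (θ * |t|)) * Real.exp (-|w.re|) := by
    intro w h1 h2
    have e1 : w = (w.re : ℂ) + (-(-w.im) : ℝ) * I := by
      rw [neg_neg]; exact (Complex.re_add_im w).symm
    rw [e1, hval w.re (-w.im)]
    have e2 : ((w.re : ℂ) + (-(-w.im) : ℝ) * I).re = w.re := by simp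
    rw [e2, norm_mul, norm_mul, norm_mul, unit_norm, Complex.norm_real, Real.norm_eq_abs,
      abs_of_pos (Real.exp_pos _), one_mul, Complex.norm_exp_ofReal_mul_I, one_mul]
    have h3 := hK (-w.im) (by linarith) (by linarith) w.re
    have h4 : Real.exp (-(-w.im * t)) ≤ Real.exp (θ * |t|) := by
      apply Real.exp_le_exp.2
      have a1 : w.im * t ≤ |w.im * t| := le_abs_self _
      rw [abs_mul, abs_of_nonpos h2] at a1
      have a2 : -w.im * |t| ≤ θ * |t| := mul_le_mul_of_nonneg_right (by linarith) (abs_nonneg _)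
      linarith
    calc Real.exp (-(-w.im * t)) * ‖psi α (-w.im) w.re‖
        ≤ Real.exp (θ * |t|) * (K * Real.exp (-|w.re|)) :=
          mul_le_mul h4 h3 (norm_nonneg _) (Real.exp_pos _).le
      _ = _ := by ring
  have hs := shift f θ hθ hfd _ hbd
  have e1 : ∫ u : ℝ, f u = MM α 0 t := by
    unfold MM
    refine integral_congr_ae (Eventually.of_forall fun u => ?_)
    have := hval u 0
    simp only [neg_zero, Complex.ofReal_zero, zero_mul, add_zero, Complex.exp_zero, Real.exp_zero,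
      Complex.ofReal_one, mul_one, one_mul] at this
    exact this
  have e2 : ∫ u : ℝ, f (u + (-θ : ℝ) * I) =
      (Complex.exp (θ * I) * Real.exp (-(θ * t))) * MM α θ t := by
    unfold MM
    rw [← integral_const_mul]
    exact integral_congr_ae (Eventually.of_forall fun u => hval u θ)
  rw [e1, e2] at hs
  rw [hs, norm_mul, norm_mul, unit_norm, one_mul, Complex.norm_real, Real.norm_eq_abs,
    abs_of_pos (Real.exp_pos _), ← mul_assoc, ← Real.exp_add]
  simp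

end Pool.Agent.TH304.BZ
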