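import Mathlib
import Pool.Agent.TH304.BZ.D
import Pool.Agent.Helper390.CovarioA
set_option autoImplicit false

/-! # Plancherel and the upper bound -/

namespace Pool.Agent.TH304.BZ

open MeasureTheory Set Complex Filter Topology
open scoped FourierTransform ENNReal

theorem psi_integrable (α : ℝ) (h0 : 0 < α) (hα : α ≤ 1) (θ : ℝ) (hθ : 0 ≤ θ)
    (hθ2 : θ < Real.pi / 2) : Integrable (psi α θ) := by
  obtain ⟨K, hK0, hK⟩ := psi_bound α h0 hα θ hθ hθ2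
  exact (exp_abs_integrable.const_mul K).mono' (psi_cont α h0 θ hθ hθ2).aestronglyMeasurable
    (Eventually.of_forall fun u => hK θ hθ le_rfl u)

theorem psi_sq_integrable (α : ℝ) (h0 : 0 < α) (hα : α ≤ 1) (θ : ℝ) (hθ : 0 ≤ θ)
    (hθ2 : θ < Real.pi / 2) : Integrable (fun u => ‖psi α θ u‖ ^ 2) := by
  obtain ⟨K, hK0, hK⟩ := psi_bound α h0 hα θ hθ hθ2
  refine (exp_abs_integrable.const_mul (K ^ 2)).mono'
    ((psi_cont α h0 θ hθ hθ2).norm.pow 2).aestronglyMeasurable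
    (Eventually.of_forall fun u => ?_)
  have h1 := hK θ hθ le_rfl u
  rw [Real.norm_eq_abs, abs_of_nonneg (by positivity)]
  have h2 : Real.exp (-|u|) ≤ 1 := by
    rw [Real.exp_le_one_iff]; linarith [abs_nonneg u]
  calc ‖psi α θ u‖ ^ 2 ≤ (K * Real.exp (-|u|)) ^ 2 := by gcongr
    _ = K ^ 2 * (Real.exp (-|u|) * Real.exp (-|u|)) := by ring
    _ ≤ K ^ 2 * (Real.exp (-|u|) * 1) := by gcongr
    _ = _ := by ring

theorem MM_fourier (α θ t : ℝ) : MM α θ t = 𝓕 (psi α θ) (t / (2 * Real.pi)) := by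
  rw [Real.fourier_real_eq_integral_exp_smul]
  unfold MM
  refine integral_congr_ae (Eventually.of_forall fun u => ?_)
  simp only [smul_eq_mul]
  congr 2
  have hpi : Real.pi ≠ 0 := Real.pi_ne_zero
  congr 2
  field_simp

theorem plancherel_MM (α : ℝ) (h0 : 0 < α) (hα : α ≤ 1) (θ : ℝ) (hθ : 0 ≤ θ)
    (hθ2 : θ < Real.pi / 2) : ∫⁻ t : ℝ, ENNReal.ofReal (‖MM α θ t‖ ^ 2) =
      ENNReal.ofReal (2 * Real.pi) * ∫⁻ u : ℝ, ENNReal.ofReal (‖psi α θ u‖ ^ 2) := by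
  have hpi := Real.pi_pos
  have h1 := psi_integrable α h0 hα θ hθ hθ2
  have h2 : MemLp (psi α θ) 2 := (memLp_two_iff_integrable_sq_norm h1.aestronglyMeasurable).2
    (psi_sq_integrable α h0 hα θ hθ hθ2)
  obtain ⟨hm, he⟩ := Pool.Agent.Helper390.Covario.plancherel h1 h2
  have hint : Integrable (fun x => ‖𝓕 (psi α θ) x‖ ^ 2) :=
    (memLp_two_iff_integrable_sq_norm hm.aestronglyMeasurable).1 hm
  have hint' : Integrable (fun ξ : ℝ => ‖𝓕 (psi α θ) (ξ / (2 * Real.pi))‖ ^ 2) :=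
    hint.comp_div (by positivity)
  simp only [MM_fourier]
  rw [← ofReal_integral_eq_lintegral_ofReal hint' (ae_of_all _ fun _ => by positivity),
    ← ofReal_integral_eq_lintegral_ofReal (psi_sq_integrable α h0 hα θ hθ hθ2)
      (ae_of_all _ fun _ => by positivity),
    Measure.integral_comp_div (fun x => ‖𝓕 (psi α θ) x‖ ^ 2) (2 * Real.pi), he, smul_eq_mul,
    abs_of_pos (by positivity), ENNReal.ofReal_mul (by positivity)]

theorem upper (α : ℝ) (h0 : 0 < α) (hα : α ≤ 1) (C : ℝ) (hC : 0 ≤ C)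
    (hb : ∀ t : ℝ, 1 ≤ t → ‖MM α 0 t‖ ^ 2 ≤ C * (t ^ (3 / 2 : ℝ) * Real.exp (-(Real.pi * t)))) :
    ∃ A : ℝ, 0 < A ∧ ∀ δ : ℝ, 0 < δ → δ < 1 →
      ∫⁻ u : ℝ, ENNReal.ofReal (‖psi α (Real.pi / 2 - δ) u‖ ^ 2) ≤
        ENNReal.ofReal (A * (1 / δ) ^ (5 / 2 : ℝ)) := by
  have hpi := Real.pi_gt_three
  have hfin : ∫⁻ t : ℝ, ENNReal.ofReal (‖MM α 0 t‖ ^ 2) ≠ ∞ := by
    rw [plancherel_MM α h0 hα 0 le_rfl (by linarith)]
    refine ENNReal.mul_ne_top ENNReal.ofReal_ne_top ?_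
    exact ((psi_sq_integrable α h0 hα 0 le_rfl (by linarith)).lintegral_lt_top).ne
  obtain ⟨B, hB0, hB⟩ : ∃ B : ℝ, 0 ≤ B ∧ ∫⁻ t : ℝ, ENNReal.ofReal (‖MM α 0 t‖ ^ 2) =
      ENNReal.ofReal B := ⟨(∫⁻ t : ℝ, ENNReal.ofReal (‖MM α 0 t‖ ^ 2)).toReal,
        ENNReal.toReal_nonneg, (ENNReal.ofReal_toReal hfin).symm⟩
  have hG : 0 < Real.Gamma (5 / 2) := Real.Gamma_pos_of_pos (by norm_num)
  refine ⟨Real.exp Real.pi * B + C * Real.Gamma (5 / 2) + 1, by positivity, ?_⟩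
  intro δ hδ0 hδ1
  set θ : ℝ := Real.pi / 2 - δ with hθd
  have hθ : 0 ≤ θ := by rw [hθd]; linarith
  have hθ2 : θ < Real.pi / 2 := by rw [hθd]; linarith
  have hmeas : Measurable fun t : ℝ => ENNReal.ofReal (C * (t ^ ((5 / 2 : ℝ) - 1) *
      Real.exp (-((2 * δ) * t)))) := by fun_prop
  have hpt : ∀ t : ℝ, ENNReal.ofReal (‖MM α θ t‖ ^ 2) ≤
      ENNReal.ofReal (Real.exp Real.pi) * ENNReal.ofReal (‖MM α 0 t‖ ^ 2) +
        (Ioi (0 : ℝ)).indicator (fun t : ℝ => ENNReal.ofReal (C * (t ^ ((5 / 2 : ℝ) - 1) *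
          Real.exp (-((2 * δ) * t))))) t := by
    intro t
    rw [rotate α h0 hα θ hθ hθ2 t, mul_pow]
    rcases lt_or_ge t 1 with ht | ht
    · refine le_trans ?_ le_self_add
      rw [← ENNReal.ofReal_mul (by positivity)]
      apply ENNReal.ofReal_le_ofReal
      refine mul_le_mul_of_nonneg_right ?_ (by positivity)
      rw [← Real.exp_nat_mul]
      apply Real.exp_le_exp.2
      push_cast
      have : θ * t ≤ θ * 1 := mul_le_mul_of_nonneg_left ht.le hθ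
      linarith
    · refine le_trans ?_ le_add_self
      rw [indicator_of_mem (show t ∈ Ioi (0 : ℝ) from lt_of_lt_of_le one_pos ht)]
      apply ENNReal.ofReal_le_ofReal
      calc Real.exp (θ * t) ^ 2 * ‖MM α 0 t‖ ^ 2
          ≤ Real.exp (θ * t) ^ 2 * (C * (t ^ (3 / 2 : ℝ) * Real.exp (-(Real.pi * t)))) :=
            mul_le_mul_of_nonneg_left (hb t ht) (by positivity)
        _ = C * (t ^ (3 / 2 : ℝ) * (Real.exp (θ * t) ^ 2 * Real.exp (-(Real.pi * t)))) := by ring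
        _ = C * (t ^ ((5 / 2 : ℝ) - 1) * Real.exp (-((2 * δ) * t))) := by
            rw [← Real.exp_nat_mul, ← Real.exp_add]
            congr 3
            · norm_num
            · rw [hθd]; push_cast; ring
  have hI : ∫⁻ t in Ioi (0 : ℝ), ENNReal.ofReal (C * (t ^ ((5 / 2 : ℝ) - 1) *
      Real.exp (-((2 * δ) * t)))) =
      ENNReal.ofReal (C * ((1 / (2 * δ)) ^ (5 / 2 : ℝ) * Real.Gamma (5 / 2))) := by
    rw [← ofReal_integral_eq_lintegral_ofReal]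
    · rw [integral_const_mul, Real.integral_rpow_mul_exp_neg_mul_Ioi (by norm_num) (by positivity)]
    · have := integrableOn_rpow_mul_exp_neg_mul_rpow (p := 1) (s := (5 / 2 : ℝ) - 1) (b := 2 * δ)
        (by norm_num) one_pos (by positivity)
      refine (this.congr_fun (fun t _ => ?_) measurableSet_Ioi).const_mul C
      simp only [Real.rpow_one, neg_mul]
    · refine (ae_restrict_iff' measurableSet_Ioi).2 (Eventually.of_forall fun t ht => ?_)
      have : (0 : ℝ) < t := ht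
      positivity
  have hsum : ∫⁻ t : ℝ, ENNReal.ofReal (‖MM α θ t‖ ^ 2) ≤ ENNReal.ofReal (Real.exp Real.pi * B +
      C * ((1 / (2 * δ)) ^ (5 / 2 : ℝ) * Real.Gamma (5 / 2))) := by
    calc ∫⁻ t : ℝ, ENNReal.ofReal (‖MM α θ t‖ ^ 2) ≤ ∫⁻ t : ℝ,
        (ENNReal.ofReal (Real.exp Real.pi) * ENNReal.ofReal (‖MM α 0 t‖ ^ 2) +
        (Ioi (0 : ℝ)).indicator (fun t : ℝ => ENNReal.ofReal (C * (t ^ ((5 / 2 : ℝ) - 1) *
          Real.exp (-((2 * δ) * t))))) t) := lintegral_mono hpt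
      _ = ENNReal.ofReal (Real.exp Real.pi) * ENNReal.ofReal B +
          ENNReal.ofReal (C * ((1 / (2 * δ)) ^ (5 / 2 : ℝ) * Real.Gamma (5 / 2))) := by
          rw [lintegral_add_right _ (hmeas.indicator measurableSet_Ioi),
            lintegral_const_mul' _ _ ENNReal.ofReal_ne_top, hB,
            lintegral_indicator measurableSet_Ioi, hI]
      _ = _ := by
          rw [← ENNReal.ofReal_mul (by positivity), ← ENNReal.ofReal_add (by positivity)
            (by positivity)]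
  have h3 : ∫⁻ u : ℝ, ENNReal.ofReal (‖psi α θ u‖ ^ 2) ≤
      ∫⁻ t : ℝ, ENNReal.ofReal (‖MM α θ t‖ ^ 2) := by
    rw [plancherel_MM α h0 hα θ hθ hθ2]
    calc ∫⁻ u : ℝ, ENNReal.ofReal (‖psi α θ u‖ ^ 2) =
        1 * ∫⁻ u : ℝ, ENNReal.ofReal (‖psi α θ u‖ ^ 2) := (one_mul _).symm
      _ ≤ _ := by
          refine mul_le_mul' ?_ le_rfl
          rw [← ENNReal.ofReal_one]
          apply ENNReal.ofReal_le_ofReal
          linarith
  refine (h3.trans hsum).trans (ENNReal.ofReal_le_ofReal ?_)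
  have h4 : (1 : ℝ) ≤ (1 / δ) ^ (5 / 2 : ℝ) := by
    apply Real.one_le_rpow _ (by norm_num)
    rw [le_div_iff₀ hδ0]; linarith
  have h5 : (1 / (2 * δ)) ^ (5 / 2 : ℝ) ≤ (1 / δ) ^ (5 / 2 : ℝ) := by
    apply Real.rpow_le_rpow (by positivity) _ (by norm_num)
    apply one_div_le_one_div_of_le hδ0
    linarith
  have h6 : 0 ≤ Real.exp Real.pi * B := by positivity
  have h7 : Real.exp Real.pi * B ≤ Real.exp Real.pi * B * (1 / δ) ^ (5 / 2 : ℝ) :=
    le_mul_of_one_le_right h6 h4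
  have h8 : C * ((1 / (2 * δ)) ^ (5 / 2 : ℝ) * Real.Gamma (5 / 2)) ≤
      C * ((1 / δ) ^ (5 / 2 : ℝ) * Real.Gamma (5 / 2)) := by gcongr
  have h9 : 0 ≤ (1 / δ) ^ (5 / 2 : ℝ) := by positivity
  nlinarith

end Pool.Agent.TH304.BZ
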