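import Mathlib
import Pool.Agent.TH304.BZ.C
import Pool.Agent.TH304.BZ.D
set_option autoImplicit false

/-! # Analytic continuation -/

namespace Pool.Agent.TH304.BZ

open MeasureTheory Set Complex Filter Topology Asymptotics

/-- regularised `1 / (Γ(s) (s + k))` -/
noncomputable def RR (k : ℕ) (s : ℂ) : ℂ :=
  (ascPochhammer ℂ k).eval s * (Complex.Gamma (s + k + 1))⁻¹

theorem inv_Gamma_poch (k : ℕ) (s : ℂ) :
    (Complex.Gamma s)⁻¹ = (ascPochhammer ℂ k).eval s * (Complex.Gamma (s + k))⁻¹ := by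
  induction k with
  | zero => simp
  | succ k ih =>
    rw [ih, Complex.one_div_Gamma_eq_self_mul_one_div_Gamma_add_one (s + k),
      ascPochhammer_succ_eval]
    push_cast
    rw [show s + ((k : ℂ) + 1) = s + k + 1 by ring]
    ring

theorem RR_mul (k : ℕ) (s : ℂ) : (s + k) * RR k s = (Complex.Gamma s)⁻¹ := by
  unfold RR
  rw [inv_Gamma_poch k s, Complex.one_div_Gamma_eq_self_mul_one_div_Gamma_add_one (s + k)]
  ring

theorem RR_diff (k : ℕ) : Differentiable ℂ (RR k) := by
  unfold RR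
  have h1 : Differentiable ℂ fun s : ℂ => (Complex.Gamma (s + k + 1))⁻¹ :=
    Complex.differentiable_one_div_Gamma.comp ((differentiable_id.add_const _).add_const _)
  exact (Polynomial.differentiable _).mul h1

/-- the tail of the Mellin integral -/
noncomputable def PP (α : ℝ) (s : ℂ) : ℂ :=
  mellin ((Ioi (1 : ℝ)).indicator fun x : ℝ => hh α (x * 1)) s

theorem tail_locInt (α : ℝ) (h0 : 0 < α) : LocallyIntegrableOn
    ((Ioi (1 : ℝ)).indicator fun x : ℝ => hh α (x * 1)) (Ioi 0) := by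
  have h1 := (hh_cont α h0 1 (by simp)).locallyIntegrableOn (μ := volume) measurableSet_Ioi
  exact locInt_indicator _ h1 (Ioi 1) measurableSet_Ioi

theorem tail_top (α : ℝ) (h0 : 0 < α) : ((Ioi (1 : ℝ)).indicator fun x : ℝ => hh α (x * 1))
    =O[atTop] (fun x : ℝ => Real.exp (-((1 + α) / 2) * x)) := by
  refine IsBigO.of_bound (((1 - Real.exp (-(1 : ℂ).re)) *
    (1 - Real.exp (-(α * (1 : ℂ).re))))⁻¹) ?_
  filter_upwards [eventually_gt_atTop (1 : ℝ)] with x hx
  rw [indicator_of_mem (show x ∈ Ioi (1 : ℝ) from hx), Real.norm_eq_abs,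
    abs_of_pos (Real.exp_pos _)]
  have := hh_exp α h0 1 (by simp) x hx.le
  simpa using this

theorem tail_bot (α : ℝ) (b : ℝ) : ((Ioi (1 : ℝ)).indicator fun x : ℝ => hh α (x * 1))
    =O[𝓝[>] 0] (fun x : ℝ => x ^ (-b)) := by
  refine IsBigO.of_bound 1 ?_
  have h2 : Ioc (0 : ℝ) 1 ∈ 𝓝[>] (0 : ℝ) := Ioc_mem_nhdsGT one_pos
  filter_upwards [h2] with x hx
  rw [indicator_of_notMem (fun h => by
    have h' : (1 : ℝ) < x := h
    linarith [hx.2]), norm_zero]
  positivity

theorem PP_diff (α : ℝ) (h0 : 0 < α) : Differentiable ℂ (PP α) := fun s =>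
  mellin_differentiableAt_of_isBigO_rpow_exp (a := (1 + α) / 2) (b := s.re - 1) (by positivity)
    (tail_locInt α h0) (tail_top α h0) (tail_bot α _) (by linarith)

theorem PP_conv (α : ℝ) (h0 : 0 < α) (s : ℂ) :
    MellinConvergent ((Ioi (1 : ℝ)).indicator fun x : ℝ => hh α (x * 1)) s :=
  mellinConvergent_of_isBigO_rpow_exp (a := (1 + α) / 2) (b := s.re - 1) (by positivity)
    (tail_locInt α h0) (tail_top α h0) (tail_bot α _) (by linarith)

/-- Taylor coefficients with absolutely convergent sum -/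
theorem exists_coeff (α : ℝ) (h0 : 0 < α) (h1 : α ≤ 1) : ∃ c : ℕ → ℂ,
    (Summable fun k => ‖c k‖) ∧ ∀ x : ℝ, 0 < x → x ≤ 1 →
      HasSum (fun k => c k * (x : ℂ) ^ k) (ff α 1 x) := by
  obtain ⟨q, hqd, hq⟩ := exists_q α h0 h1
  refine ⟨fun k => ((k.factorial : ℂ))⁻¹ * iteratedDeriv k q 0, ?_, ?_⟩
  · have h2 := Complex.hasSum_taylorSeries_on_ball (f := q) (c := 0) (r := 3) (z := 2) hqd
      (by simp; norm_num)
    have h3 := h2.summable
    have h4 : Summable fun k : ℕ => (((k.factorial : ℂ))⁻¹ * iteratedDeriv k q 0) * (2 : ℂ) ^ k := by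
      refine h3.congr fun k => ?_
      simp only [sub_zero, smul_eq_mul]
      ring
    have h5 := h4.tendsto_atTop_zero.norm
    rw [norm_zero] at h5
    obtain ⟨B, hB⟩ := h5.bddAbove_range
    have hB' : ∀ k : ℕ, ‖(((k.factorial : ℂ))⁻¹ * iteratedDeriv k q 0) * (2 : ℂ) ^ k‖ ≤ B :=
      fun k => hB ⟨k, rfl⟩
    refine Summable.of_nonneg_of_le (fun k => norm_nonneg _) (fun k => ?_)
      ((summable_geometric_of_lt_one (r := (1 / 2 : ℝ)) (by norm_num) (by norm_num)).mul_left B)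
    have h6 := hB' k
    rw [norm_mul, norm_pow] at h6
    have h7 : ‖(2 : ℂ)‖ = 2 := by norm_num
    rw [h7] at h6
    rw [one_div, inv_pow, ← div_eq_mul_inv, le_div_iff₀ (by positivity)]
    exact h6
  · intro x hx hx1
    have hz : (x : ℂ) ∈ Metric.ball (0 : ℂ) 3 := by
      rw [mem_ball_zero_iff, Complex.norm_real, Real.norm_eq_abs, abs_of_pos hx]; linarith
    have h2 := Complex.hasSum_taylorSeries_on_ball (f := q) (c := 0) (r := 3) hqd hz
    rw [ff_small α h0 h1 q hq 1 (by simp) (by simp) x hx hx1, mul_one]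
    refine h2.congr_fun fun k => ?_
    simp only [sub_zero, smul_eq_mul]
    ring

theorem series_mellin (α : ℝ) (c : ℕ → ℂ) (hc : Summable fun k => ‖c k‖)
    (hx : ∀ x : ℝ, 0 < x → x ≤ 1 → HasSum (fun k => c k * (x : ℂ) ^ k) (ff α 1 x))
    (s : ℂ) (hs : 0 < s.re) :
    HasSum (fun k : ℕ => c k * (1 / (s + k))) (mellin ((Ioc (0 : ℝ) 1).indicator (ff α 1)) s) := by
  set f : ℕ → ℝ → ℂ := fun k x => c k • (Ioc (0 : ℝ) 1).indicator (fun t : ℝ => (t : ℂ) ^ (k : ℂ)) x
    with hf
  have h1 : ∀ k : ℕ, HasMellin (f k) s (c k * (1 / (s + k))) := by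
    intro k
    have h2 := hasMellin_cpow_Ioc (k : ℂ) (s := s) (by
      simp only [Complex.natCast_re]; positivity)
    have h3 := hasMellin_const_smul h2.1 (c k)
    rw [h2.2] at h3
    exact h3
  have hone := hasMellin_cpow_Ioc (0 : ℂ) (s := s) (by simpa using hs)
  set A : ℝ := ∫ x in Ioi (0 : ℝ), ‖(x : ℂ) ^ (s - 1) •
    (Ioc (0 : ℝ) 1).indicator (fun t : ℝ => (t : ℂ) ^ (0 : ℂ)) x‖ with hA
  have h4 : Summable fun k : ℕ => ∫ x in Ioi (0 : ℝ), ‖(x : ℂ) ^ (s - 1) • f k x‖ := by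
    refine Summable.of_nonneg_of_le (fun k => integral_nonneg fun x => norm_nonneg _) (fun k => ?_)
      (hc.mul_right A)
    rw [hA, ← integral_const_mul]
    refine integral_mono_ae (h1 k).1.norm (hone.1.norm.const_mul _) ?_
    refine Eventually.of_forall fun x => ?_
    simp only [hf]
    rw [norm_smul, norm_smul, norm_smul]
    by_cases hx' : x ∈ Ioc (0 : ℝ) 1
    · rw [indicator_of_mem hx', indicator_of_mem hx', Complex.cpow_zero, norm_one,
        Complex.cpow_natCast, norm_pow, Complex.norm_real, Real.norm_eq_abs, abs_of_pos hx'.1]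
      have e1 : x ^ k ≤ 1 := pow_le_one₀ hx'.1.le hx'.2
      calc ‖(x : ℂ) ^ (s - 1)‖ * (‖c k‖ * x ^ k) ≤ ‖(x : ℂ) ^ (s - 1)‖ * (‖c k‖ * 1) := by gcongr
        _ = _ := by ring
    · rw [indicator_of_notMem hx', indicator_of_notMem hx', norm_zero]
      simp
  have h5 := hasSum_integral_of_summable_integral_norm (μ := volume.restrict (Ioi (0 : ℝ)))
    (F := fun k x => (x : ℂ) ^ (s - 1) • f k x) (fun k => (h1 k).1) h4
  have h6 : ∀ k, ∫ x in Ioi (0 : ℝ), (x : ℂ) ^ (s - 1) • f k x = c k * (1 / (s + k)) :=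
    fun k => (h1 k).2
  simp only [h6] at h5
  have h7 : ∫ x in Ioi (0 : ℝ), (∑' k, (x : ℂ) ^ (s - 1) • f k x) =
      mellin ((Ioc (0 : ℝ) 1).indicator (ff α 1)) s := by
    unfold mellin
    refine setIntegral_congr_fun measurableSet_Ioi (fun x hx0 => ?_)
    by_cases hx' : x ∈ Ioc (0 : ℝ) 1
    · rw [indicator_of_mem hx']
      have h8 := (hx x hx'.1 hx'.2).const_smul ((x : ℂ) ^ (s - 1))
      rw [← h8.tsum_eq]
      refine tsum_congr fun k => ?_
      simp only [hf]
      rw [indicator_of_mem hx', Complex.cpow_natCast, smul_eq_mul, smul_eq_mul, smul_eq_mul]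
    · rw [indicator_of_notMem hx', smul_zero]
      have : ∀ k, (x : ℂ) ^ (s - 1) • f k x = 0 := by
        intro k
        simp only [hf]
        rw [indicator_of_notMem hx', smul_zero, smul_zero]
      rw [tsum_congr this, tsum_zero]
  rw [h7] at h5
  exact h5

/-- the continuation -/
noncomputable def FF (α : ℝ) (c : ℕ → ℂ) (s : ℂ) : ℂ :=
  (Complex.Gamma s)⁻¹ * (PP α s + (α : ℂ)⁻¹ / (s - 2)) + ∑' k : ℕ, c k * RR k s

theorem FF_tail_diff (c : ℕ → ℂ) (hc : Summable fun k => ‖c k‖) :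
    Differentiable ℂ fun s : ℂ => ∑' k : ℕ, c k * RR k s := by
  intro s
  obtain ⟨N, hN⟩ := exists_nat_gt ‖s‖
  have hball : Metric.ball (0 : ℂ) N ∈ 𝓝 s := by
    apply Metric.isOpen_ball.mem_nhds
    rwa [mem_ball_zero_iff]
  have hbk : ∀ k : ℕ, ∃ B : ℝ, 0 ≤ B ∧ ∀ z ∈ Metric.closedBall (0 : ℂ) N, ‖RR k z‖ ≤ B := by
    intro k
    obtain ⟨B, hB⟩ := (isCompact_closedBall (0 : ℂ) N).exists_bound_of_continuousOn
      (RR_diff k).continuous.continuousOn
    exact ⟨|B|, abs_nonneg _, fun z hz => (hB z hz).trans (le_abs_self _)⟩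
  choose Bk hBk0 hBk using hbk
  obtain ⟨B, hB⟩ := (isCompact_closedBall (0 : ℂ) N).exists_bound_of_continuousOn
      (Complex.differentiable_one_div_Gamma.continuous.continuousOn)
  set v : ℕ → ℝ := fun k => if k < N + 1 then Bk k else |B| with hv
  have hv0 : ∀ k, 0 ≤ v k := by
    intro k
    simp only [hv]
    split_ifs
    · exact hBk0 k
    · exact abs_nonneg _
  have hvb : ∀ k, ∀ z ∈ Metric.ball (0 : ℂ) N, ‖RR k z‖ ≤ v k := by
    intro k z hz
    have hz' : z ∈ Metric.closedBall (0 : ℂ) N := Metric.ball_subset_closedBall hz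
    simp only [hv]
    split_ifs with h
    · exact hBk k z hz'
    · push Not at h
      have h1 := RR_mul k z
      have h2 : 1 ≤ ‖z + k‖ := by
        have h3 := norm_sub_norm_le (k : ℂ) (-z)
        rw [norm_neg, sub_neg_eq_add, Complex.norm_natCast, add_comm] at h3
        rw [mem_ball_zero_iff] at hz
        have h4 : ((N : ℝ) + 1) ≤ k := by exact_mod_cast h
        linarith
      have h5 : ‖z + k‖ * ‖RR k z‖ ≤ |B| := by
        rw [← norm_mul, h1]
        exact (hB z hz').trans (le_abs_self _)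
      calc ‖RR k z‖ = 1 * ‖RR k z‖ := (one_mul _).symm
        _ ≤ ‖z + k‖ * ‖RR k z‖ := mul_le_mul_of_nonneg_right h2 (norm_nonneg _)
        _ ≤ |B| := h5
  have hsum : Summable fun k => ‖c k‖ * v k := by
    rw [← summable_nat_add_iff (N + 1)]
    have h1 := ((summable_nat_add_iff (N + 1)).2 hc).mul_right |B|
    refine h1.congr fun k => ?_
    simp only [hv]
    rw [if_neg (by omega)]
  have h2 := differentiableOn_tsum_of_summable_norm (F := fun k s => c k * RR k s) hsum
    (fun k => ((RR_diff k).const_mul (c k)).differentiableOn) Metric.isOpen_ball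
    (fun k z hz => by
      rw [norm_mul]
      exact mul_le_mul_of_nonneg_left (hvb k z hz) (norm_nonneg _))
  exact h2.differentiableAt hball

theorem FF_diff (α : ℝ) (h0 : 0 < α) (c : ℕ → ℂ) (hc : Summable fun k => ‖c k‖) (s : ℂ)
    (hs : s ≠ 2) : DifferentiableAt ℂ (FF α c) s := by
  unfold FF
  refine DifferentiableAt.add ?_ (FF_tail_diff c hc s)
  refine (Complex.differentiable_one_div_Gamma s).mul ((PP_diff α h0 s).add ?_)
  refine (differentiableAt_const _).div (differentiableAt_id.sub_const 2) ?_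
  exact sub_ne_zero.2 hs

theorem FF_eq (α : ℝ) (h0 : 0 < α) (h1 : α ≤ 1) (c : ℕ → ℂ) (hc : Summable fun k => ‖c k‖)
    (hx : ∀ x : ℝ, 0 < x → x ≤ 1 → HasSum (fun k => c k * (x : ℂ) ^ k) (ff α 1 x))
    (s : ℂ) (hs : 0 < s.re) :
    Complex.Gamma s * FF α c s = mellin (ff α 1) s + (α : ℂ)⁻¹ / (s - 2) := by
  have hG : Complex.Gamma s ≠ 0 := Complex.Gamma_ne_zero_of_re_pos hs
  have h2 := series_mellin α c hc hx s hs
  have h3 : ∀ k : ℕ, c k * RR k s = (Complex.Gamma s)⁻¹ * (c k * (1 / (s + k))) := by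
    intro k
    have e1 : s + k ≠ 0 := by
      intro h
      have := congrArg Complex.re h
      rw [Complex.add_re, Complex.natCast_re, Complex.zero_re] at this
      have : (0 : ℝ) ≤ k := by positivity
      linarith
    rw [← RR_mul k s]
    field_simp
  have h4 : ∑' k : ℕ, c k * RR k s =
      (Complex.Gamma s)⁻¹ * mellin ((Ioc (0 : ℝ) 1).indicator (ff α 1)) s := by
    simp only [h3]
    rw [tsum_mul_left, h2.tsum_eq]
  have h5 := ff_conv α h0 h1 1 (by simp) (by simp) s hs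
  have hcI : MellinConvergent ((Ioc (0 : ℝ) 1).indicator (ff α 1)) s := by
    have : (fun t : ℝ => (t : ℂ) ^ (s - 1) • (Ioc (0 : ℝ) 1).indicator (ff α 1) t) =
        (Ioc (0 : ℝ) 1).indicator (fun t : ℝ => (t : ℂ) ^ (s - 1) • ff α 1 t) := by
      funext t
      by_cases ht : t ∈ Ioc (0 : ℝ) 1
      · rw [indicator_of_mem ht, indicator_of_mem ht]
      · rw [indicator_of_notMem ht, indicator_of_notMem ht, smul_zero]
    unfold MellinConvergent
    rw [this]
    exact h5.indicator measurableSet_Ioc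
  have h6 := hasMellin_add hcI (PP_conv α h0 s)
  have h7 : mellin (ff α 1) s = mellin ((Ioc (0 : ℝ) 1).indicator (ff α 1)) s + PP α s := by
    unfold PP
    rw [← h6.2]
    unfold mellin
    refine setIntegral_congr_fun measurableSet_Ioi (fun x hx0 => ?_)
    have hx0' : (0 : ℝ) < x := hx0
    simp only
    congr 1
    by_cases ht : x ∈ Ioc (0 : ℝ) 1
    · rw [indicator_of_mem ht, indicator_of_notMem (fun h => by
        have h' : (1 : ℝ) < x := h
        linarith [ht.2]), add_zero]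
    · have h' : (1 : ℝ) < x := by
        by_contra hcon
        exact ht ⟨hx0', not_lt.1 hcon⟩
      rw [indicator_of_notMem ht, indicator_of_mem (show x ∈ Ioi (1 : ℝ) from h'), zero_add]
      unfold ff TT
      rw [indicator_of_notMem ht, mul_zero, sub_zero]
  unfold FF
  rw [h4, h7]
  field_simp
  ring

end Pool.Agent.TH304.BZ
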