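import Mathlib
import Pool.Agent.TH304.BZ.D
set_option autoImplicit false

/-! # The lower bound near the almost double poles -/

namespace Pool.Agent.TH304.BZ

open MeasureTheory Set Complex Filter Topology
open scoped ENNReal

theorem norm_sinh_shift (v : ℂ) (n : ℤ) :
    ‖Complex.sinh v‖ = ‖Complex.sinh (v - n * Real.pi * I)‖ := by
  have e1 : ∀ w : ℂ, ‖Complex.sinh w‖ = ‖Complex.sin (w * I)‖ := by
    intro w
    rw [Complex.sin_mul_I, norm_mul, Complex.norm_I, mul_one]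
  rw [e1, e1]
  have e2 : (v - n * Real.pi * I) * I = v * I + n * Real.pi := by
    linear_combination (-(n : ℂ) * Real.pi) * Complex.I_sq
  have e3 : Complex.cos ((n : ℂ) * Real.pi) = ((Real.cos (n * Real.pi) : ℝ) : ℂ) := by
    push_cast
    rfl
  rw [e2, Complex.sin_add, Complex.sin_int_mul_pi, mul_zero, add_zero, norm_mul, e3,
    Complex.norm_real, Real.norm_eq_abs, Real.abs_cos_int_mul_pi, mul_one]

theorem norm_sinh_le (v : ℂ) (hv : ‖v‖ ≤ 1) : ‖Complex.sinh v‖ ≤ 2 * ‖v‖ := by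
  have h1 := Complex.norm_exp_sub_one_le hv
  have h2 := Complex.norm_exp_sub_one_le (x := -v) (by rwa [norm_neg])
  rw [norm_neg] at h2
  have e : Complex.sinh v = ((Complex.exp v - 1) - (Complex.exp (-v) - 1)) / 2 := by
    rw [Complex.sinh]; ring
  rw [e, norm_div]
  have h3 : ‖(2 : ℂ)‖ = 2 := by norm_num
  rw [h3]
  have h4 := norm_sub_le (Complex.exp v - 1) (Complex.exp (-v) - 1)
  linarith

theorem g1_large (α : ℝ) (h0 : 0 < α) (hα : α ≤ 1) (q p : ℤ) (hq : 1 ≤ q) (δ : ℝ) (hδ0 : 0 < δ)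
    (h1 : 10 * (q : ℝ) * δ ≤ 1) (h2 : 2080 * (q : ℝ) ^ 2 * δ ^ 2 ≤ α)
    (h3 : |α * q - p| ≤ δ) (x : ℝ) (hx1 : 2 * Real.pi * q ≤ x) (hx2 : x ≤ 2 * Real.pi * q + δ) :
    (2080 * (q : ℝ) ^ 2 * δ ^ 2)⁻¹ ≤
      ‖g1 α ((x : ℂ) * Complex.exp ((Real.pi / 2 - δ : ℝ) * I))‖ := by
  have hpi := Real.pi_gt_three
  have hpi2 := Real.pi_lt_d2
  have hqr : (1 : ℝ) ≤ q := by exact_mod_cast hq
  have hδ1 : δ ≤ 1 := by nlinarith
  have hx0 : 1 ≤ x := by nlinarith
  have hx8 : x ≤ 8 * q := by nlinarith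
  set z : ℂ := (x : ℂ) * Complex.exp ((Real.pi / 2 - δ : ℝ) * I) with hz
  have hzre : z.re = x * Real.sin δ := by
    rw [hz, Complex.re_ofReal_mul, unit_re, Real.cos_pi_div_two_sub]
  have hzim : z.im = x * Real.cos δ := by
    rw [hz, Complex.im_ofReal_mul, Complex.exp_ofReal_mul_I_im, Real.sin_pi_div_two_sub]
  have hznorm : ‖z‖ = x := by
    rw [hz, norm_mul, unit_norm, mul_one, Complex.norm_real, Real.norm_eq_abs,
      abs_of_pos (by linarith)]
  have hsin0 : 0 < Real.sin δ := Real.sin_pos_of_pos_of_lt_pi hδ0 (by linarith)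
  have hsin1 : Real.sin δ ≤ δ := Real.sin_le hδ0.le
  have hcos1 : Real.cos δ ≤ 1 := Real.cos_le_one δ
  have hcos2 : 1 - δ ^ 2 / 2 ≤ Real.cos δ := Real.one_sub_sq_div_two_le_cos
  -- distance to the pole
  have hw : ‖z - 2 * q * Real.pi * I‖ ≤ 13 * q * δ := by
    have e1 : (z - 2 * q * Real.pi * I).re = x * Real.sin δ := by
      rw [Complex.sub_re, hzre]
      simp
    have e2 : (z - 2 * q * Real.pi * I).im = x * Real.cos δ - 2 * Real.pi * q := by
      rw [Complex.sub_im, hzim]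
      simp
      ring
    refine (Complex.norm_le_abs_re_add_abs_im _).trans ?_
    rw [e1, e2, abs_of_pos (by positivity)]
    have a1 : |x * Real.cos δ - 2 * Real.pi * q| ≤ δ + x * δ ^ 2 / 2 := by
      rw [abs_le]
      constructor
      · nlinarith
      · nlinarith
    have a2 : x * δ ^ 2 / 2 ≤ x * δ / 2 := by
      have : δ ^ 2 ≤ δ := by nlinarith
      nlinarith
    have a3 : x * Real.sin δ ≤ x * δ := by nlinarith
    nlinarith
  have hw2 : ‖(α : ℂ) * z - 2 * p * Real.pi * I‖ ≤ 20 * q * δ := by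
    have e1 : (α : ℂ) * z - 2 * p * Real.pi * I =
        (α : ℂ) * (z - 2 * q * Real.pi * I) + ((2 * Real.pi * (α * q - p) : ℝ) : ℂ) * I := by
      push_cast
      ring
    rw [e1]
    refine (norm_add_le _ _).trans ?_
    rw [norm_mul, norm_mul, Complex.norm_I, mul_one, Complex.norm_real, Complex.norm_real,
      Real.norm_eq_abs, Real.norm_eq_abs, abs_of_pos h0, abs_mul, abs_of_pos (by positivity)]
    have a1 : α * ‖z - 2 * q * Real.pi * I‖ ≤ 1 * (13 * q * δ) :=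
      mul_le_mul hα hw (norm_nonneg _) zero_le_one
    have a2 : 2 * Real.pi * |α * q - p| ≤ 2 * Real.pi * δ := by gcongr
    nlinarith
  have hs1 : ‖Complex.sinh (z / 2)‖ ≤ 13 * q * δ := by
    rw [norm_sinh_shift (z / 2) q]
    have e1 : z / 2 - q * Real.pi * I = (z - 2 * q * Real.pi * I) / 2 := by ring
    have e2 : ‖(z - 2 * q * Real.pi * I) / 2‖ = ‖z - 2 * q * Real.pi * I‖ / 2 := by
      rw [norm_div]; norm_num
    rw [e1]
    have := norm_sinh_le ((z - 2 * q * Real.pi * I) / 2) (by rw [e2]; nlinarith)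
    rw [e2] at this
    linarith
  have hs2 : ‖Complex.sinh ((α : ℂ) * z / 2)‖ ≤ 20 * q * δ := by
    rw [norm_sinh_shift ((α : ℂ) * z / 2) p]
    have e1 : (α : ℂ) * z / 2 - p * Real.pi * I = ((α : ℂ) * z - 2 * p * Real.pi * I) / 2 := by
      ring
    have e2 : ‖((α : ℂ) * z - 2 * p * Real.pi * I) / 2‖ =
        ‖(α : ℂ) * z - 2 * p * Real.pi * I‖ / 2 := by
      rw [norm_div]; norm_num
    rw [e1]
    have := norm_sinh_le (((α : ℂ) * z - 2 * p * Real.pi * I) / 2) (by rw [e2]; nlinarith)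
    rw [e2] at this
    linarith
  have hp1 : 0 < ‖Complex.sinh (z / 2)‖ := by
    have e1 : (z / 2).re = x * Real.sin δ / 2 := by
      rw [show z / 2 = ((1 / 2 : ℝ) : ℂ) * z by push_cast; ring, Complex.re_ofReal_mul, hzre]
      ring
    have := norm_sinh_ge (z / 2) (by rw [e1]; positivity)
    rw [e1] at this
    have h : 0 < x * Real.sin δ / 2 := by positivity
    linarith
  have hp2 : 0 < ‖Complex.sinh ((α : ℂ) * z / 2)‖ := by
    have e1 : ((α : ℂ) * z / 2).re = α * (x * Real.sin δ) / 2 := by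
      rw [show (α : ℂ) * z / 2 = ((α / 2 : ℝ) : ℂ) * z by push_cast; ring, Complex.re_ofReal_mul,
        hzre]
      ring
    have := norm_sinh_ge ((α : ℂ) * z / 2) (by rw [e1]; positivity)
    rw [e1] at this
    have h : 0 < α * (x * Real.sin δ) / 2 := by positivity
    linarith
  have hh1 : (1040 * (q : ℝ) ^ 2 * δ ^ 2)⁻¹ ≤ ‖hh α z‖ := by
    rw [hh_eq, norm_inv]
    apply inv_anti₀
    · rw [norm_mul, norm_mul]
      have : ‖(4 : ℂ)‖ = 4 := by norm_num
      rw [this]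
      positivity
    · rw [norm_mul, norm_mul]
      have : ‖(4 : ℂ)‖ = 4 := by norm_num
      rw [this]
      calc 4 * (‖Complex.sinh (z / 2)‖ * ‖Complex.sinh ((α : ℂ) * z / 2)‖)
          ≤ 4 * ((13 * q * δ) * (20 * q * δ)) := by gcongr
        _ = 1040 * (q : ℝ) ^ 2 * δ ^ 2 := by ring
  have hm : ‖(α : ℂ)⁻¹ / z ^ 2‖ ≤ (2080 * (q : ℝ) ^ 2 * δ ^ 2)⁻¹ := by
    rw [norm_div, norm_inv, norm_pow, hznorm, Complex.norm_real, Real.norm_eq_abs, abs_of_pos h0]
    have a1 : α⁻¹ / x ^ 2 ≤ α⁻¹ := by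
      apply div_le_self (by positivity)
      nlinarith
    have a2 : α⁻¹ ≤ (2080 * (q : ℝ) ^ 2 * δ ^ 2)⁻¹ := inv_anti₀ (by positivity) h2
    linarith
  unfold g1
  have h5 := norm_sub_norm_le (hh α z) ((α : ℂ)⁻¹ / z ^ 2)
  have h6 : (1040 * (q : ℝ) ^ 2 * δ ^ 2)⁻¹ = 2 * (2080 * (q : ℝ) ^ 2 * δ ^ 2)⁻¹ := by
    have : (q : ℝ) ≠ 0 := by linarith
    field_simp
    norm_num
  linarith

theorem lower (α : ℝ) (h0 : 0 < α) (hα : α ≤ 1) (q p : ℤ) (hq : 1 ≤ q) (δ : ℝ) (hδ0 : 0 < δ)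
    (h1 : 10 * (q : ℝ) * δ ≤ 1) (h2 : 2080 * (q : ℝ) ^ 2 * δ ^ 2 ≤ α)
    (h3 : |α * q - p| ≤ δ) :
    ENNReal.ofReal (δ / (8 * q) * ((2080 * (q : ℝ) ^ 2 * δ ^ 2)⁻¹) ^ 2) ≤
      ∫⁻ u : ℝ, ENNReal.ofReal (‖psi α (Real.pi / 2 - δ) u‖ ^ 2) := by
  have hpi := Real.pi_gt_three
  have hpi2 := Real.pi_lt_d2
  have hqr : (1 : ℝ) ≤ q := by exact_mod_cast hq
  have hδ1 : δ ≤ 1 := by nlinarith
  have hX : 0 < 2 * Real.pi * q := by positivity
  set c : ℝ := (2080 * (q : ℝ) ^ 2 * δ ^ 2)⁻¹ with hc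
  have hc0 : 0 < c := by positivity
  set J : Set ℝ := Icc (-Real.log (2 * Real.pi * q + δ)) (-Real.log (2 * Real.pi * q)) with hJ
  have hvol : ENNReal.ofReal (δ / (8 * q)) ≤ volume J := by
    rw [hJ, Real.volume_Icc]
    apply ENNReal.ofReal_le_ofReal
    have e1 : -Real.log (2 * Real.pi * q) - -Real.log (2 * Real.pi * q + δ) =
        Real.log ((2 * Real.pi * q + δ) / (2 * Real.pi * q)) := by
      rw [Real.log_div (by positivity) (by positivity)]; ring
    rw [e1]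
    refine le_trans ?_ (Real.one_sub_inv_le_log_of_pos (by positivity))
    rw [inv_div]
    have e2 : 1 - 2 * Real.pi * q / (2 * Real.pi * q + δ) = δ / (2 * Real.pi * q + δ) := by
      field_simp
      ring
    rw [e2]
    apply div_le_div_of_nonneg_left hδ0.le (by positivity)
    nlinarith
  have hpt : ∀ u ∈ J, ENNReal.ofReal (c ^ 2) ≤
      ENNReal.ofReal (‖psi α (Real.pi / 2 - δ) u‖ ^ 2) := by
    intro u hu
    apply ENNReal.ofReal_le_ofReal
    have b1 : 2 * Real.pi * q ≤ Real.exp (-u) := by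
      rw [← Real.log_le_iff_le_exp hX]
      linarith [hu.2]
    have b2 : Real.exp (-u) ≤ 2 * Real.pi * q + δ := by
      rw [← Real.le_log_iff_exp_le (by positivity)]
      linarith [hu.1]
    have b3 := g1_large α h0 hα q p hq δ hδ0 h1 h2 h3 (Real.exp (-u)) b1 b2
    rw [← hc] at b3
    have b4 : c ≤ ‖psi α (Real.pi / 2 - δ) u‖ := by
      unfold psi
      rw [norm_mul, Complex.norm_real, Real.norm_eq_abs, abs_of_pos (Real.exp_pos _)]
      have b5 : 1 ≤ Real.exp (-u) := by nlinarith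
      calc c ≤ ‖g1 α ((Real.exp (-u) : ℂ) * Complex.exp ((Real.pi / 2 - δ : ℝ) * I))‖ := b3
        _ = 1 * ‖g1 α ((Real.exp (-u) : ℂ) * Complex.exp ((Real.pi / 2 - δ : ℝ) * I))‖ :=
            (one_mul _).symm
        _ ≤ _ := mul_le_mul_of_nonneg_right b5 (norm_nonneg _)
    gcongr
  calc ENNReal.ofReal (δ / (8 * q) * c ^ 2) = ENNReal.ofReal (c ^ 2) *
        ENNReal.ofReal (δ / (8 * q)) := by
        rw [mul_comm, ENNReal.ofReal_mul (by positivity)]
    _ ≤ ENNReal.ofReal (c ^ 2) * volume J := mul_le_mul' le_rfl hvol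
    _ = ∫⁻ u in J, ENNReal.ofReal (c ^ 2) := by rw [setLIntegral_const]
    _ ≤ ∫⁻ u in J, ENNReal.ofReal (‖psi α (Real.pi / 2 - δ) u‖ ^ 2) :=
        setLIntegral_mono' measurableSet_Icc hpt
    _ ≤ _ := setLIntegral_le_lintegral _ _

end Pool.Agent.TH304.BZ
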