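import Mathlib
import Pool.Agent.TH304.BZ.E
import Pool.Agent.TH304.BZ.G
import Pool.Agent.TH304.BZ.H
set_option autoImplicit false

/-! # The Barnes double zeta function with a Liouville parameter -/

namespace Pool.Agent.TH304.BZ

open MeasureTheory Set Complex Filter Topology
open scoped ENNReal FourierTransform ComplexConjugate

theorem Gamma_sq (t : ℝ) (ht : 0 < t) :
    ‖Complex.Gamma (1 + t * I)‖ ^ 2 = Real.pi * t / Real.sinh (Real.pi * t) := by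
  have hsinh : 0 < Real.sinh (Real.pi * t) := Real.sinh_pos_iff.2 (by positivity)
  have hz : (t : ℂ) * I ≠ 0 := mul_ne_zero (by exact_mod_cast ht.ne') Complex.I_ne_zero
  have h1 : Complex.Gamma (1 + t * I) = (t : ℂ) * I * Complex.Gamma (t * I) := by
    rw [add_comm, Complex.Gamma_add_one _ hz]
  have h2 : conj (Complex.Gamma (1 + t * I)) = Complex.Gamma (1 - t * I) := by
    rw [← Complex.Gamma_conj]
    congr 1
    simp
    ring
  have h3 := Complex.Gamma_mul_Gamma_one_sub ((t : ℂ) * I)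
  have h4 : Complex.sin (Real.pi * ((t : ℂ) * I)) = ((Real.sinh (Real.pi * t) : ℝ) : ℂ) * I := by
    rw [show (Real.pi : ℂ) * ((t : ℂ) * I) = ((Real.pi * t : ℝ) : ℂ) * I by push_cast; ring,
      Complex.sin_mul_I, Complex.ofReal_sinh]
  have h5 : ((‖Complex.Gamma (1 + t * I)‖ ^ 2 : ℝ) : ℂ) =
      ((Real.pi * t / Real.sinh (Real.pi * t) : ℝ) : ℂ) := by
    have e1 : ((‖Complex.Gamma (1 + t * I)‖ ^ 2 : ℝ) : ℂ) =
        Complex.Gamma (1 + t * I) * conj (Complex.Gamma (1 + t * I)) := by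
      rw [Complex.mul_conj, Complex.normSq_eq_norm_sq]
    rw [e1, h2, h1, mul_assoc, h3, h4]
    have hsc : ((Real.sinh (Real.pi * t) : ℝ) : ℂ) ≠ 0 := by exact_mod_cast hsinh.ne'
    push_cast
    rw [Complex.ofReal_sinh] at hsc
    push_cast at hsc
    field_simp
  exact_mod_cast h5

theorem Gamma_bound (t : ℝ) (ht : 1 ≤ t) :
    ‖Complex.Gamma (1 + t * I)‖ ^ 2 ≤ 4 * Real.pi * (t * Real.exp (-(Real.pi * t))) := by
  have hpi := Real.pi_gt_three
  rw [Gamma_sq t (by linarith)]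
  have h1 : Real.exp (Real.pi * t) / 4 ≤ Real.sinh (Real.pi * t) := by
    rw [Real.sinh_eq]
    have h2 : Real.exp (-(Real.pi * t)) ≤ 1 := by
      rw [Real.exp_le_one_iff]; nlinarith
    have h3 : 2 ≤ Real.exp (Real.pi * t) := by
      have := Real.add_one_le_exp (Real.pi * t)
      nlinarith
    linarith
  rw [div_le_iff₀ (by have := Real.exp_pos (Real.pi * t); linarith)]
  have h4 : Real.exp (-(Real.pi * t)) * Real.exp (Real.pi * t) = 1 := by
    rw [← Real.exp_add]; simp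
  calc Real.pi * t = 4 * Real.pi * (t * Real.exp (-(Real.pi * t))) *
        (Real.exp (Real.pi * t) / 4) := by
        linear_combination (-(Real.pi * t)) * h4
    _ ≤ _ := by
        apply mul_le_mul_of_nonneg_left h1
        have := Real.exp_pos (-(Real.pi * t))
        positivity

theorem MM_eq (α : ℝ) (h0 : 0 < α) (hα : α ≤ 1) (c : ℕ → ℂ) (hc : Summable fun k => ‖c k‖)
    (hx : ∀ x : ℝ, 0 < x → x ≤ 1 → HasSum (fun k => c k * (x : ℂ) ^ k) (ff α 1 x)) (t : ℝ) :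
    MM α 0 t = Complex.Gamma (1 + t * I) * FF α c (1 + t * I) := by
  have hre : ((1 : ℂ) + t * I).re = 1 := by simp
  have him : ((1 : ℂ) + t * I).im = t := by simp
  have h1 := mellin_left α h0 hα 1 (by simp) (by simp) (1 + t * I) (by rw [hre]; norm_num)
    (by rw [hre]; norm_num)
  have h2 := FF_eq α h0 hα c hc hx (1 + t * I) (by rw [hre]; norm_num)
  rw [one_pow, div_one] at h1
  have e2 : psi α 0 = fun u : ℝ => Real.exp (-1 * u) • BZ.h1 α 1 (Real.exp (-u)) := by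
    funext u
    unfold psi
    have e1 : Complex.exp ((0 : ℝ) * I) = 1 := by simp
    rw [e1, h1_eq α 1 one_ne_zero (Real.exp (-u)) (Real.exp_pos _), Complex.real_smul, neg_one_mul]
  rw [h2, ← h1.2, mellin_eq_fourier, hre, him, MM_fourier, e2]

theorem exists_liouville : ∃ α : ℝ, Liouville α ∧ 0 < α ∧ α < 1 := by
  obtain ⟨α, h1, h2⟩ := dense_liouville.exists_mem_open (isOpen_Ioo (a := (0 : ℝ)) (b := 1))
    ⟨1 / 2, by norm_num, by norm_num⟩
  exact ⟨α, h1, h2.1, h2.2⟩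

/-- Key theorem: for a Liouville parameter the function is not `O(t^(1/4))` on `re s = 1`. -/
theorem not_bounded (α : ℝ) (hL : Liouville α) (h0 : 0 < α) (hα : α ≤ 1) (c : ℕ → ℂ)
    (hc : Summable fun k => ‖c k‖)
    (hx : ∀ x : ℝ, 0 < x → x ≤ 1 → HasSum (fun k => c k * (x : ℂ) ^ k) (ff α 1 x)) (C : ℝ)
    (hC : ∀ t : ℝ, 1 ≤ t → ‖FF α c (1 + t * I)‖ ≤ C * t ^ (1 / 4 : ℝ)) : False := by
  have hpi := Real.pi_gt_three
  have hb : ∀ t : ℝ, 1 ≤ t → ‖MM α 0 t‖ ^ 2 ≤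
      (4 * Real.pi * C ^ 2) * (t ^ (3 / 2 : ℝ) * Real.exp (-(Real.pi * t))) := by
    intro t ht
    have ht0 : 0 < t := by linarith
    rw [MM_eq α h0 hα c hc hx t, norm_mul, mul_pow]
    have h1 := Gamma_bound t ht
    have h2 : ‖FF α c (1 + t * I)‖ ^ 2 ≤ (C * t ^ (1 / 4 : ℝ)) ^ 2 := by
      have := hC t ht
      gcongr
    have h3 : (C * t ^ (1 / 4 : ℝ)) ^ 2 = C ^ 2 * t ^ (1 / 2 : ℝ) := by
      rw [mul_pow, ← Real.rpow_natCast (t ^ (1 / 4 : ℝ)), ← Real.rpow_mul ht0.le]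
      norm_num
    have h4 : t ^ (3 / 2 : ℝ) = t * t ^ (1 / 2 : ℝ) := by
      nth_rewrite 2 [← Real.rpow_one t]
      rw [← Real.rpow_add ht0]
      norm_num
    calc ‖Complex.Gamma (1 + t * I)‖ ^ 2 * ‖FF α c (1 + t * I)‖ ^ 2
        ≤ (4 * Real.pi * (t * Real.exp (-(Real.pi * t)))) * (C ^ 2 * t ^ (1 / 2 : ℝ)) := by
          rw [← h3]
          refine mul_le_mul h1 h2 (by positivity) ?_
          positivity
      _ = _ := by rw [h4]; ring
  obtain ⟨A, hA0, hA⟩ := upper α h0 hα _ (by positivity) hb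
  -- choice of the scale
  obtain ⟨k, hk⟩ : ∃ k : ℕ, max (A * (8 * 2080 ^ 2)) (2080 / α) < (2 : ℝ) ^ k := by
    exact pow_unbounded_of_one_lt _ (by norm_num)
  have hk1 : A * (8 * 2080 ^ 2) < (2 : ℝ) ^ k := lt_of_le_of_lt (le_max_left _ _) hk
  have hk2 : 2080 / α < (2 : ℝ) ^ k := lt_of_le_of_lt (le_max_right _ _) hk
  set M : ℕ := k + 5 with hM
  obtain ⟨a, b, hb1, -, hab⟩ := hL (2 * M + 1)
  have hbr : (2 : ℝ) ≤ b := by
    have : (2 : ℤ) ≤ b := hb1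
    exact_mod_cast this
  have hb0 : (0 : ℝ) < b := by linarith
  set δ : ℝ := 1 / (b : ℝ) ^ (2 * M) with hδ
  have hδ0 : 0 < δ := by positivity
  have hδb : δ * (b : ℝ) ^ (2 * M) = 1 := by
    rw [hδ]; field_simp
  have hdist : |α * b - a| ≤ δ := by
    have e1 : α * b - a = b * (α - a / b) := by field_simp
    rw [e1, abs_mul, abs_of_pos hb0]
    calc b * |α - a / b| ≤ b * (1 / (b : ℝ) ^ (2 * M + 1)) := by gcongr
      _ = δ := by rw [hδ, pow_succ]; field_simp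
  have hpow : ∀ n : ℕ, (2 : ℝ) ^ n ≤ (b : ℝ) ^ n := fun n => by gcongr
  have hone : ∀ n : ℕ, (1 : ℝ) ≤ (b : ℝ) ^ n := fun n => one_le_pow₀ (by linarith)
  have hc1 : 10 * (b : ℝ) * δ ≤ 1 := by
    have e1 : (b : ℝ) ^ (2 * M) = b * (b ^ 4 * b ^ (2 * k + 5)) := by
      rw [hM]; ring
    have e2 : (16 : ℝ) ≤ (b : ℝ) ^ 4 := by
      have := hpow 4
      norm_num at this
      exact this
    have e3 : 10 * (b : ℝ) ≤ (b : ℝ) ^ (2 * M) := by
      rw [e1]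
      have f1 := hone (2 * k + 5)
      calc 10 * (b : ℝ) ≤ b * (16 * 1) := by linarith
        _ ≤ b * ((b : ℝ) ^ 4 * b ^ (2 * k + 5)) := by gcongr
    calc 10 * (b : ℝ) * δ ≤ (b : ℝ) ^ (2 * M) * δ := by gcongr
      _ = 1 := by rw [mul_comm]; exact hδb
  have hc2 : 2080 * (b : ℝ) ^ 2 * δ ^ 2 ≤ α := by
    have e1 : ((b : ℝ) ^ (2 * M)) ^ 2 = b ^ 2 * (b ^ k * b ^ (3 * k + 18)) := by
      rw [hM]; ring
    have e2 : 2080 ≤ α * (2 : ℝ) ^ k := by
      rw [div_lt_iff₀ h0] at hk2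
      linarith
    have e3 : 2080 * (b : ℝ) ^ 2 ≤ α * ((b : ℝ) ^ (2 * M)) ^ 2 := by
      rw [e1]
      have f1 := hone (3 * k + 18)
      have f2 := hpow k
      calc 2080 * (b : ℝ) ^ 2 ≤ (α * (2 : ℝ) ^ k) * (b : ℝ) ^ 2 := by gcongr
        _ ≤ (α * (b : ℝ) ^ k) * (b : ℝ) ^ 2 := by gcongr
        _ = (α * (b : ℝ) ^ k) * (b : ℝ) ^ 2 * 1 := by ring
        _ ≤ (α * (b : ℝ) ^ k) * (b : ℝ) ^ 2 * (b : ℝ) ^ (3 * k + 18) := by gcongr
        _ = _ := by ring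
    calc 2080 * (b : ℝ) ^ 2 * δ ^ 2 ≤ α * ((b : ℝ) ^ (2 * M)) ^ 2 * δ ^ 2 := by gcongr
      _ = α * (δ * (b : ℝ) ^ (2 * M)) ^ 2 := by ring
      _ = α := by rw [hδb]; ring
  have hδ1 : δ < 1 := by
    have : 10 * (b : ℝ) * δ ≥ 10 * 2 * δ := by gcongr
    linarith
  have h1 := lower α h0 hα b a (by linarith) δ hδ0 hc1 hc2 hdist
  have h2 := hA δ hδ0 hδ1
  have h3 := h1.trans h2
  rw [ENNReal.ofReal_le_ofReal_iff (by positivity)] at h3
  have e1 : (1 / δ) = (b : ℝ) ^ (2 * M) := by rw [hδ]; field_simp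
  have e2 : (1 / δ) ^ (5 / 2 : ℝ) = (b : ℝ) ^ (5 * M) := by
    rw [e1, ← Real.rpow_natCast, ← Real.rpow_mul hb0.le, ← Real.rpow_natCast]
    congr 1
    push_cast
    ring
  have e3 : δ / (8 * b) * ((2080 * (b : ℝ) ^ 2 * δ ^ 2)⁻¹) ^ 2 =
      (b : ℝ) ^ (6 * M) / (8 * 2080 ^ 2 * b ^ 5) := by
    rw [hδ]
    field_simp
    ring
  rw [e2, e3, div_le_iff₀ (by positivity)] at h3
  have e4 : (b : ℝ) ^ (6 * M) = b ^ (5 * M) * b ^ 5 * b ^ k := by
    rw [hM]; ring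
  rw [e4] at h3
  have h4 : (b : ℝ) ^ (5 * M) * b ^ 5 * b ^ k ≤ (b : ℝ) ^ (5 * M) * b ^ 5 * (A * (8 * 2080 ^ 2)) := by
    linarith
  have h5 := le_of_mul_le_mul_left h4 (by positivity)
  have h6 := hpow k
  linarith

end Pool.Agent.TH304.BZ
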